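import Pool.Agent.TH652.Dual5

/-!
Alexander duality in flag homology spheres, in the form: every cycle of a full subcomplex is
homologous to the cap product of the fundamental cycle with a cocycle of the full subcomplex on the
complement (from the duality for finite sets with involutions of `Pool.Agent.TH652`).
-/

set_option autoImplicit false
set_option linter.unusedSectionVars false

open scoped Classical

namespace Pool.Agent.Helper41.SD

open Pool.Agent.W907.SG Pool.Agent.W907.SM Module Pool.Agent.TH652.Dual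

variable {V : Type} [Fintype V] [LinearOrder V] {G : SimpleGraph V} (A : Set V)

/-- the vertices in `A` swap the two points -/
noncomputable def aA (v : V) (b : Bool) : Bool := if v ∈ A then !b else b

theorem aA_inv (v : V) (x : Bool) : aA A v (aA A v x) = x := by
  unfold aA
  split_ifs
  · exact Bool.not_not x
  · rfl

theorem aA_comm (u v : V) (x : Bool) : aA A u (aA A v x) = aA A v (aA A u x) := by
  unfold aA
  split_ifs <;> rfl

/-- the anti-invariant part -/
noncomputable def pi0 : (Bool → ℝ) →ₗ[ℝ] ℝ where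
  toFun f := (f false - f true) / 2
  map_add' f g := by
    simp only [Pi.add_apply]
    ring
  map_smul' r f := by
    simp only [Pi.smul_apply, smul_eq_mul, RingHom.id_apply]
    ring

theorem pi0_apply (f : Bool → ℝ) : pi0 f = (f false - f true) / 2 := rfl

/-- the anti-invariant part of a chain -/
noncomputable def Pi0 : (Finset V → Bool → ℝ) →ₗ[ℝ] (Finset V → ℝ) where
  toFun c T := pi0 (c T)
  map_add' c d := by
    funext T
    simp only [Pi.add_apply, map_add]
  map_smul' r c := by
    funext T
    simp only [Pi.smul_apply, map_smul, RingHom.id_apply]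

theorem Pi0_apply (c : Finset V → Bool → ℝ) (T : Finset V) : Pi0 c T = pi0 (c T) := rfl

theorem bd_Pi0 (c : Finset V → Bool → ℝ) : bd ℝ (Pi0 c) = Pi0 (bd ℝ c) := by
  funext T
  rw [bd_apply, Pi0_apply, bd_apply, map_sum]
  refine Finset.sum_congr rfl fun v _ => ?_
  rw [Pi0_apply, map_zsmul]

theorem pull_mem {v : V} (h : v ∈ A) (f : Bool → ℝ) (b : Bool) : pull ℝ (aA A) v f b = f (!b) := by
  rw [pull_apply]
  unfold aA
  rw [if_pos h]

theorem pull_not {v : V} (h : v ∉ A) (f : Bool → ℝ) : pull ℝ (aA A) v f = f := by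
  funext b
  rw [pull_apply]
  unfold aA
  rw [if_neg h]

theorem pi0_PR {hc : ∀ u v, G.Adj u v → ∀ x, aA A u (aA A v x) = aA A v (aA A u x)} (R : Finset V) :
    G.IsClique (R : Set V) → ∀ f, pi0 (PR G (aA A) hc R f) = if (R : Set V) ⊆ A then pi0 f else 0 := by
  induction R using Finset.induction_on with
  | empty =>
    intro h f
    rw [PR_of_anti hc h f (fun v hv => absurd hv (Finset.notMem_empty v)), if_pos (by simp)]
  | insert v R hv ih =>
    intro h f
    have hR : G.IsClique (R : Set V) := h.subset (by simp)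
    rw [PR_insert hc hv h, ih hR]
    by_cases hA : v ∈ A
    · have e : pi0 (pm (aA A) v f) = pi0 f := by
        rw [pi0_apply, pi0_apply, pm_apply, pm_apply]
        unfold aA
        simp only [if_pos hA, Bool.not_false, Bool.not_true]
        ring
      rw [e]
      by_cases hRA : (R : Set V) ⊆ A
      · rw [if_pos hRA, if_pos]
        rw [Finset.coe_insert]
        exact Set.insert_subset hA hRA
      · rw [if_neg hRA, if_neg]
        rw [Finset.coe_insert]
        exact fun h' => hRA ((Set.subset_insert _ _).trans h')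
    · have e : pi0 (pm (aA A) v f) = 0 := by
        rw [pi0_apply, pm_apply, pm_apply]
        unfold aA
        simp only [if_neg hA]
        ring
      rw [e, ite_self, if_neg]
      rw [Finset.coe_insert]
      exact fun h' => hA (h' (Set.mem_insert _ _))

theorem Pi0_KK {i : ℕ} {c : Finset V → Bool → ℝ} (hc : c ∈ KK G (pull ℝ (aA A)) Set.univ ∅ i) :
    Pi0 c ∈ KK G (triv V) A ∅ i := by
  rw [mem_KK] at hc
  rw [mem_KK_triv]
  intro T hT
  rw [Pi0_apply]
  by_cases h : G.IsClique (T : Set V) ∧ T.card = i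
  · have h1 : ¬ (T : Set V) ⊆ A := fun h' => hT ⟨h.1, h', h.2⟩
    obtain ⟨t, ht, hA⟩ := Set.not_subset.1 h1
    have h2 := hc.2 T t (Or.inl ht)
    rw [pull_not A hA] at h2
    have h3 : c T = 0 := by
      funext x
      have := congrFun h2 x
      rw [Pi.neg_apply] at this
      rw [Pi.zero_apply]
      linarith
    rw [h3, map_zero]
  · rw [hc.1 T fun h' => h ⟨h'.1, h'.2.2⟩, map_zero]

theorem Pi0_BB {i : ℕ} {c : Finset V → Bool → ℝ} (hc : c ∈ BB G (pull ℝ (aA A)) Set.univ ∅ i) :
    Pi0 c ∈ BB G (triv V) A ∅ i := by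
  obtain ⟨d, hd, rfl⟩ := hc
  exact ⟨Pi0 d, Pi0_KK A hd, bd_Pi0 d⟩

/-- Alexander duality: every cycle of the full subcomplex on `A` is homologous to the cap product of
the fundamental cycle with a cocycle of the full subcomplex on the complement. -/
theorem alexander {n : ℕ} (hS : Sph n G) {o : Finset V → ℝ}
    (ho : o ∈ ZZ G (triv V) (lk G ∅) ∅ n) (ho0 : o ≠ 0) {i j : ℕ} (hij : i + j = n)
    {z : Finset V → ℝ} (hz : z ∈ ZZ G (triv V) A ∅ i) :
    ∃ m : Finset V → ℝ,
      (∀ S : Finset V, ¬ (G.IsClique (S : Set V) ∧ (S : Set V) ⊆ Aᶜ ∧ S.card = j) → m S = 0) ∧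
      (∀ S : Finset V, G.IsClique (S : Set V) → (S : Set V) ⊆ Aᶜ →
        ∑ s ∈ S, (sg s (S.erase s) : ℝ) * m (S.erase s) = 0) ∧
      (z - fun R : Finset V => if G.IsClique (R : Set V) ∧ (R : Set V) ⊆ A then
        ∑ S : Finset V, ((-1 : ℝ) ^ S.card) * (oS o S R * m S) else 0) ∈ BB G (triv V) A ∅ i := by
  have hi := aA_inv A
  have hc : ∀ u v, G.Adj u v → ∀ x, aA A u (aA A v x) = aA A v (aA A u x) := fun u v _ x =>
    aA_comm A u v x
  let zt : Finset V → Bool → ℝ := fun T b => (if b then -1 else 1) * z T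
  have hz1 : zt ∈ KK G (pull ℝ (aA A)) Set.univ ∅ i := by
    have h1 := (mem_KK_triv.1 hz.1)
    rw [mem_KK]
    refine ⟨fun T hT => ?_, fun T t ht => ?_⟩
    · have : z T = 0 := h1 T fun h => hT ⟨h.1, Set.subset_univ _, h.2.2⟩
      funext b
      simp only [zt, this, mul_zero, Pi.zero_apply]
    · rcases ht with ht | ht
      · by_cases h : G.IsClique (T : Set V) ∧ (T : Set V) ⊆ A ∧ T.card = i
        · funext b
          rw [pull_mem A (h.2.1 ht), Pi.neg_apply]
          cases b <;> simp [zt]
        · have : z T = 0 := h1 T h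
          have e : zt T = 0 := by
            funext b
            simp only [zt, this, mul_zero, Pi.zero_apply]
          rw [e, map_zero, neg_zero]
      · exact absurd ht (Set.notMem_empty t)
  have hz2 : bd ℝ zt = 0 := by
    have h1 : bd ℝ z = 0 := hz.2
    funext T b
    have h2 := congrFun h1 T
    rw [bd_apply] at h2
    rw [bd_apply, Finset.sum_apply]
    have e : ∀ v ∈ Tᶜ, (sg v T • zt (insert v T)) b = (if b then (-1 : ℝ) else 1) *
        (sg v T • z (insert v T)) := by
      intro v _
      rw [Pi.smul_apply, zsmul_eq_mul, zsmul_eq_mul]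
      simp only [zt]
      ring
    rw [Finset.sum_congr rfl e, ← Finset.mul_sum, h2]
    simp
  obtain ⟨w', hw1, hw2, hw3, hw4⟩ := zigzag hi hc hS i j 0 (fam0 zt) (by omega) (fam0_lay hz1)
      (fam0_D1 hz2) (fam0_D2 hz1)
  rw [zero_add] at hw1
  obtain ⟨m, hm, rfl⟩ := exists_m hS ho ho0 hij hw1 hw2
  have hdd := dd_of_D2 hS ho ho0 hm hw3
  rw [fam0_rr hc hz1] at hw4
  have hm' := mem_KP.1 hm
  have hmA : ∀ (S : Finset V) (t : V), t ∈ S → t ∈ A → pi0 (m S) = 0 := by
    intro S t ht hA
    have h1 := hm'.2 S t ht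
    have h2 := congrFun h1 false
    rw [pull_mem A hA] at h2
    rw [pi0_apply, ← h2]
    simp
  refine ⟨fun S => pi0 (m S), ?_, ?_, ?_⟩
  · intro S hn
    by_cases h : G.IsClique (S : Set V) ∧ S.card = j
    · have h1 : ¬ (S : Set V) ⊆ Aᶜ := fun h' => hn ⟨h.1, h', h.2⟩
      obtain ⟨t, ht, hA⟩ := Set.not_subset.1 h1
      exact hmA S t ht (not_not.1 hA)
    · change pi0 (m S) = 0
      rw [hm'.1 S h, map_zero]
  · intro S hS1 hS2
    have h1 := congrFun hdd S
    rw [dd_pos hS1, Pi.zero_apply] at h1
    have h2 := congrArg pi0 h1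
    rw [map_sum, map_zero] at h2
    rw [← h2]
    refine Finset.sum_congr rfl fun s hs => ?_
    rw [map_zsmul, zsmul_eq_mul]
    congr 1
    have hsA : s ∉ A := hS2 hs
    change pi0 (m (S.erase s)) = _
    rw [pi0_apply, pi0_apply, pp_apply, pp_apply]
    unfold aA
    simp only [if_neg hsA]
    ring
  · have h1 := Pi0_BB A hw4
    rw [map_sub] at h1
    have e1 : Pi0 zt = z := by
      funext T
      rw [Pi0_apply, pi0_apply]
      simp [zt]
    have e2 : Pi0 (rr hc (wm o m)) = fun R : Finset V => if G.IsClique (R : Set V) ∧ (R : Set V) ⊆ A then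
        ∑ S : Finset V, ((-1 : ℝ) ^ S.card) * (oS o S R * pi0 (m S)) else 0 := by
      funext R
      rw [Pi0_apply, rr_apply]
      by_cases hR : G.IsClique (R : Set V)
      · rw [pi0_PR A R hR]
        by_cases hA : (R : Set V) ⊆ A
        · rw [if_pos hA, if_pos ⟨hR, hA⟩, map_sum]
          refine Finset.sum_congr rfl fun S _ => ?_
          rw [map_zsmul, zsmul_eq_mul]
          push_cast
          congr 1
          change pi0 (oS o S R • m S) = _
          rw [map_smul, smul_eq_mul]
        · rw [if_neg hA, if_neg fun h => hA h.2]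
      · rw [PR_not hc hR, if_neg fun h => hR h.1, LinearMap.zero_apply, map_zero]
    rwa [e1, e2] at h1

end Pool.Agent.Helper41.SD
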