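import Pool.Agent.Helper41.SD.D1
import Pool.Agent.Helper41.SV.Dim4
import Pool.Agent.W397.SG.EUL

/-!
1-chains as antisymmetric functions of two vertices; triangles and squares; the cap product with the
fundamental cycle.
-/

set_option autoImplicit false
set_option linter.unusedSectionVars false

open scoped Classical

namespace Pool.Agent.Helper41.SD

open Pool.Agent.W907.SG Pool.Agent.W907.SM Module Pool.Agent.TH652.Dual
open Pool.Agent.Helper41.SV (edg SqSpan dualC dim4 SqFree alt_swap01 alt_swap23)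
open Pool.Agent.Q134.SV (IsCyc)

variable {V : Type} [Fintype V] [LinearOrder V] {G : SimpleGraph V}

/-- a 1-chain as an antisymmetric function of two vertices -/
noncomputable def Km : (Finset V → ℝ) →ₗ[ℝ] (V → V → ℝ) where
  toFun z x y := if x < y then z {x, y} else if y < x then - z {x, y} else 0
  map_add' z z' := by
    funext x y
    simp only [Pi.add_apply]
    split_ifs <;> ring
  map_smul' r z := by
    funext x y
    simp only [Pi.smul_apply, smul_eq_mul, RingHom.id_apply]
    split_ifs <;> ring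

theorem Km_apply (z : Finset V → ℝ) (x y : V) :
    Km z x y = if x < y then z {x, y} else if y < x then - z {x, y} else 0 := rfl

theorem Km_lt (z : Finset V → ℝ) {x y : V} (h : x < y) : Km z x y = z {x, y} := by
  rw [Km_apply, if_pos h]

theorem Km_anti (z : Finset V → ℝ) (x y : V) : Km z x y = - Km z y x := by
  rw [Km_apply, Km_apply]
  rcases lt_trichotomy x y with h | h | h
  · rw [if_pos h, if_neg (not_lt.2 h.le), if_pos h, Finset.pair_comm, neg_neg]
  · subst h
    simp
  · rw [if_neg (not_lt.2 h.le), if_pos h, if_pos h, Finset.pair_comm]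

/-- the oriented edge -/
noncomputable def ed (x y : V) : V → V → ℝ := fun s t =>
  (if s = x ∧ t = y then 1 else 0) - (if s = y ∧ t = x then 1 else 0)

theorem edg_eq (x y : V) : @edg V (fun a b => Classical.propDecidable (a = b)) x y = ed x y := by
  funext s t
  unfold edg ed
  congr

theorem ed_anti (x y : V) : (ed x y : V → V → ℝ) = - ed y x := by
  funext s t
  simp only [ed, Pi.neg_apply]
  ring

theorem pair_eq {s t y z : V} (hst : s < t) (hyz : y < z) :
    ({s, t} : Finset V) = {y, z} ↔ s = y ∧ t = z := by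
  constructor
  · intro h
    have h1 : s ∈ ({y, z} : Finset V) := by rw [← h]; simp
    have h2 : t ∈ ({y, z} : Finset V) := by rw [← h]; simp
    simp only [Finset.mem_insert, Finset.mem_singleton] at h1 h2
    rcases h1 with rfl | rfl
    · rcases h2 with rfl | rfl
      · exact absurd hst (lt_irrefl _)
      · exact ⟨rfl, rfl⟩
    · rcases h2 with rfl | rfl
      · exact absurd (hst.trans hyz) (lt_irrefl _)
      · exact absurd hst (lt_irrefl _)
  · rintro ⟨rfl, rfl⟩
    rfl

/-- the simplex `T` -/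
noncomputable def dl (T : Finset V) : Finset V → ℝ := fun R => if R = T then 1 else 0

theorem Km_dl {y z : V} (hyz : y < z) : Km (dl {y, z}) = ed y z := by
  funext s t
  rw [Km_apply]
  unfold dl ed
  rcases lt_trichotomy s t with h | h | h
  · rw [if_pos h, if_neg (show ¬ (s = z ∧ t = y) from fun h' => by
      rw [h'.1, h'.2] at h
      exact absurd (h.trans hyz) (lt_irrefl _)), sub_zero]
    by_cases h1 : s = y ∧ t = z
    · rw [if_pos h1, if_pos ((pair_eq h hyz).2 h1)]
    · rw [if_neg h1, if_neg fun h' => h1 ((pair_eq h hyz).1 h')]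
  · subst h
    rw [if_neg (lt_irrefl _), if_neg (lt_irrefl _), if_neg, if_neg, sub_zero]
    · exact fun h' => hyz.ne (h'.2.symm.trans h'.1)
    · exact fun h' => hyz.ne (h'.1.symm.trans h'.2)
  · rw [if_neg (not_lt.2 h.le), if_pos h, if_neg (show ¬ (s = y ∧ t = z) from fun h' => by
      rw [h'.1, h'.2] at h
      exact absurd (h.trans hyz) (lt_irrefl _)), zero_sub, Finset.pair_comm]
    by_cases h1 : s = z ∧ t = y
    · rw [if_pos h1, if_pos ((pair_eq h hyz).2 h1.symm)]
    · rw [if_neg h1, if_neg fun h' => h1 ((pair_eq h hyz).1 h').symm]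

theorem bd_dl (T : Finset V) :
    bd ℝ (dl T) = ∑ v ∈ T, (sg v (T.erase v) : ℝ) • dl (T.erase v) := by
  funext R
  rw [bd_apply, Finset.sum_apply]
  have e1 : ∀ (S : Finset V) (f : V → ℝ), ∑ v ∈ S, f v = ∑ v, if v ∈ S then f v else 0 := by
    intro S f
    rw [Finset.sum_ite_mem, Finset.univ_inter]
  rw [e1 Rᶜ, e1 T]
  refine Finset.sum_congr rfl fun v _ => ?_
  by_cases hv : v ∈ R
  · rw [if_neg (by simpa using hv)]
    split_ifs with h
    · have : R ≠ T.erase v := by
        intro e
        rw [e] at hv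
        exact Finset.notMem_erase v T hv
      rw [Pi.smul_apply]
      unfold dl
      rw [if_neg this, smul_zero]
    · rfl
  · rw [if_pos (by simpa using hv)]
    by_cases hT : insert v R = T
    · rw [if_pos (by rw [← hT]; exact Finset.mem_insert_self _ _), ← hT, Finset.erase_insert hv,
        Pi.smul_apply, zsmul_eq_mul, smul_eq_mul]
      unfold dl
      rw [if_pos rfl, if_pos rfl]
    · have : dl T (insert v R) = 0 := if_neg hT
      rw [this, smul_zero]
      split_ifs with h
      · have : R ≠ T.erase v := by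
          intro e
          exact hT (by rw [e, Finset.insert_erase h])
        rw [Pi.smul_apply]
        unfold dl
        rw [if_neg this, smul_zero]
      · rfl

theorem sg_empty (u : V) : sg u (∅ : Finset V) = 1 := by simp [sg]

theorem sg_pair (u : V) {x y : V} (h : x ≠ y) :
    sg u ({x, y} : Finset V) = (if x < u then -1 else 1) * (if y < u then -1 else 1) := by
  have e : ({y} : Finset V) = insert y ∅ := rfl
  rw [sg_insert u x {y} (by simpa using h), e, sg_insert u y ∅ (Finset.notMem_empty y), sg_empty,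
    mul_one]

theorem erase_tri {x y z : V} (hxy : x ≠ y) (hyz : y ≠ z) (hxz : x ≠ z) :
    ({x, y, z} : Finset V).erase x = {y, z} ∧ ({x, y, z} : Finset V).erase y = {x, z} ∧
      ({x, y, z} : Finset V).erase z = {x, y} := by
  refine ⟨?_, ?_, ?_⟩
  · ext v
    simp only [Finset.mem_erase, Finset.mem_insert, Finset.mem_singleton]
    constructor
    · rintro ⟨h1, h2 | h2 | h2⟩
      · exact absurd h2 h1
      · exact Or.inl h2
      · exact Or.inr h2
    · rintro (rfl | rfl)
      · exact ⟨hxy.symm, Or.inr (Or.inl rfl)⟩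
      · exact ⟨hxz.symm, Or.inr (Or.inr rfl)⟩
  · ext v
    simp only [Finset.mem_erase, Finset.mem_insert, Finset.mem_singleton]
    constructor
    · rintro ⟨h1, h2 | h2 | h2⟩
      · exact Or.inl h2
      · exact absurd h2 h1
      · exact Or.inr h2
    · rintro (rfl | rfl)
      · exact ⟨hxy, Or.inl rfl⟩
      · exact ⟨hyz.symm, Or.inr (Or.inr rfl)⟩
  · ext v
    simp only [Finset.mem_erase, Finset.mem_insert, Finset.mem_singleton]
    constructor
    · rintro ⟨h1, h2 | h2 | h2⟩
      · exact Or.inl h2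
      · exact Or.inr h2
      · exact absurd h2 h1
    · rintro (rfl | rfl)
      · exact ⟨hxz, Or.inl rfl⟩
      · exact ⟨hyz, Or.inr (Or.inl rfl)⟩

theorem sg_tri {x y z : V} (hxy : x < y) (hyz : y < z) :
    sg x ({y, z} : Finset V) = 1 ∧ sg y ({x, z} : Finset V) = -1 ∧ sg z ({x, y} : Finset V) = 1 := by
  have hxz := hxy.trans hyz
  refine ⟨?_, ?_, ?_⟩
  · rw [sg_pair x hyz.ne, if_neg (not_lt.2 hxy.le), if_neg (not_lt.2 hxz.le)]
    norm_num
  · rw [sg_pair y hxz.ne, if_pos hxy, if_neg (not_lt.2 hyz.le)]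
    norm_num
  · rw [sg_pair z hxy.ne, if_pos hxz, if_pos hyz]
    norm_num

/-- the boundary of a triangle -/
noncomputable def t3 (x y z : V) : V → V → ℝ := ed x y + ed y z + ed z x

theorem sum_tri {M : Type} [AddCommMonoid M] (f : V → M) {x y z : V} (hxy : x ≠ y) (hyz : y ≠ z)
    (hxz : x ≠ z) : ∑ v ∈ ({x, y, z} : Finset V), f v = f x + (f y + f z) := by
  rw [Finset.sum_insert (by simp [hxy, hxz]), Finset.sum_insert (by simpa using hyz),
    Finset.sum_singleton]

theorem Km_tri {x y z : V} (hxy : x < y) (hyz : y < z) :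
    Km (bd ℝ (dl {x, y, z})) = t3 x y z := by
  have hxz := hxy.trans hyz
  obtain ⟨e1, e2, e3⟩ := erase_tri hxy.ne hyz.ne hxz.ne
  obtain ⟨s1, s2, s3⟩ := sg_tri hxy hyz
  rw [bd_dl, sum_tri _ hxy.ne hyz.ne hxz.ne, e1, e2, e3, s1, s2, s3, map_add, map_add, map_smul,
    map_smul, map_smul, Km_dl hyz, Km_dl hxz, Km_dl hxy]
  unfold t3
  rw [ed_anti z x]
  push_cast
  rw [one_smul, one_smul, neg_smul, one_smul]
  abel

/-- a statement about triples which is invariant under permutations -/
theorem wlog3 {P : V → V → V → Prop} (h1 : ∀ x y z, P x y z → P y z x)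
    (h2 : ∀ x y z, P x y z → P y x z) (h3 : ∀ x y z, x < y → y < z → P x y z) {x y z : V}
    (hxy : x ≠ y) (hyz : y ≠ z) (hxz : x ≠ z) : P x y z := by
  rcases lt_or_gt_of_ne hxy with a | a <;> rcases lt_or_gt_of_ne hyz with b | b <;>
    rcases lt_or_gt_of_ne hxz with c | c
  · exact h3 _ _ _ a b
  · exact absurd (a.trans b) (not_lt.2 c.le)
  · -- x < z < y
    exact h1 _ _ _ (h2 _ _ _ (h3 _ _ _ c b))
  · -- z < x < y
    exact h1 _ _ _ (h3 _ _ _ c a)
  · -- y < x < z
    exact h2 _ _ _ (h3 _ _ _ a c)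
  · -- y < z < x
    exact h1 _ _ _ (h1 _ _ _ (h3 _ _ _ b c))
  · exact absurd (b.trans a) (not_lt.2 c.le)
  · -- z < y < x
    exact h2 _ _ _ (h1 _ _ _ (h3 _ _ _ b a))

theorem t3_rot (x y z : V) : (t3 x y z : V → V → ℝ) = t3 y z x := by
  unfold t3
  abel

theorem t3_swap (x y z : V) : (t3 x y z : V → V → ℝ) = - t3 y x z := by
  unfold t3
  rw [ed_anti x y, ed_anti y z, ed_anti z x]
  abel

/-- the span of the boundaries of the triangles in `A` -/
noncomputable def TS (G : SimpleGraph V) (A : Set V) : Submodule ℝ (V → V → ℝ) :=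
  Submodule.span ℝ {c | ∃ x y z, x ∈ A ∧ y ∈ A ∧ z ∈ A ∧ G.Adj x y ∧ G.Adj y z ∧ G.Adj x z ∧
    c = t3 x y z}

theorem TS_le (A : Set V) : TS G A ≤ (BB G (triv V) A ∅ 2).map Km := by
  unfold TS
  rw [Submodule.span_le]
  rintro _ ⟨x, y, z, hx, hy, hz, hxy, hyz, hxz, rfl⟩
  have key : x ∈ A → y ∈ A → z ∈ A → G.Adj x y → G.Adj y z → G.Adj x z →
      t3 x y z ∈ (BB G (triv V) A ∅ 2).map Km := by
    refine wlog3 (P := fun x y z => x ∈ A → y ∈ A → z ∈ A → G.Adj x y → G.Adj y z → G.Adj x z →
      t3 x y z ∈ (BB G (triv V) A ∅ 2).map Km) ?_ ?_ ?_ hxy.ne hyz.ne hxz.ne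
    · intro x y z h hy hz hx hyz hzx hyx
      rw [← t3_rot]
      exact h hx hy hz hyx.symm hyz hzx.symm
    · intro x y z h hy hx hz hyx hxz hyz
      rw [t3_swap]
      exact Submodule.neg_mem _ (h hx hy hz hyx.symm hyz hxz)
    · intro x y z h1 h2 hx hy hz hxy hyz hxz
      rw [← Km_tri h1 h2]
      refine Submodule.mem_map_of_mem ⟨dl {x, y, z}, ?_, rfl⟩
      rw [SetLike.mem_coe, mem_KK_triv]
      intro T hT
      refine if_neg ?_
      rintro rfl
      refine hT ⟨?_, ?_, ?_⟩
      · intro u hu v hv huv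
        simp only [Finset.coe_insert, Finset.coe_singleton, Set.mem_insert_iff,
          Set.mem_singleton_iff] at hu hv
        rcases hu with rfl | rfl | rfl <;> rcases hv with rfl | rfl | rfl
        · exact absurd rfl huv
        · exact hxy
        · exact hxz
        · exact hxy.symm
        · exact absurd rfl huv
        · exact hyz
        · exact hxz.symm
        · exact hyz.symm
        · exact absurd rfl huv
      · intro v hv
        simp only [Finset.coe_insert, Finset.coe_singleton, Set.mem_insert_iff,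
          Set.mem_singleton_iff] at hv
        rcases hv with rfl | rfl | rfl
        · exact hx
        · exact hy
        · exact hz
      · rw [Finset.card_insert_of_notMem (by simp [hxy.ne, hxz.ne]),
          Finset.card_insert_of_notMem (by simpa using hyz.ne), Finset.card_singleton]
  exact key hx hy hz hxy hyz hxz

/-- the closed walk of length four -/
noncomputable def c4 (x y z w : V) : V → V → ℝ := ed x y + ed y z + ed z w + ed w x

/-- induced 4-cycles -/
structure SqW (G : SimpleGraph V) (x y z w : V) : Prop where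
  xy : G.Adj x y
  yz : G.Adj y z
  zw : G.Adj z w
  wx : G.Adj w x
  nxz : ¬ G.Adj x z
  nyw : ¬ G.Adj y w
  xz : x ≠ z
  yw : y ≠ w

theorem SqW.rot {x y z w : V} (h : SqW G x y z w) : SqW G y z w x :=
  ⟨h.yz, h.zw, h.wx, h.xy, h.nyw, fun e => h.nxz e.symm, h.yw, h.xz.symm⟩

theorem c4_rot (x y z w : V) : (c4 x y z w : V → V → ℝ) = c4 y z w x := by
  unfold c4
  abel

theorem c4_rev (x y z w : V) : (c4 x y z w : V → V → ℝ) = - c4 x w z y := by
  unfold c4
  rw [ed_anti x y, ed_anti y z, ed_anti z w, ed_anti w x]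
  abel

theorem sameSq0 {x y z w q r s : V} (h : SqW G x y z w) (h' : SqW G x q r s)
    (hQ : ({x, y, z, w} : Finset V) = {x, q, r, s}) :
    (c4 x y z w : V → V → ℝ) = c4 x q r s ∨ (c4 x y z w : V → V → ℝ) = - c4 x q r s := by
  have hr : r ∈ ({x, y, z, w} : Finset V) := by rw [hQ]; simp
  have hq : q ∈ ({x, y, z, w} : Finset V) := by rw [hQ]; simp
  have hs : s ∈ ({x, y, z, w} : Finset V) := by rw [hQ]; simp
  simp only [Finset.mem_insert, Finset.mem_singleton] at hr hq hs
  have hr2 : r = z := by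
    rcases hr with e | e | e | e
    · exact absurd e.symm h'.xz
    · exact absurd (e ▸ h.xy) h'.nxz
    · exact e
    · exact absurd (e ▸ h.wx.symm) h'.nxz
  subst hr2
  have hq2 : q = y ∨ q = w := by
    rcases hq with e | e | e | e
    · exact absurd e.symm h'.xy.ne
    · exact Or.inl e
    · exact absurd e h'.yz.ne
    · exact Or.inr e
  have hs2 : s = y ∨ s = w := by
    rcases hs with e | e | e | e
    · exact absurd e h'.wx.ne
    · exact Or.inl e
    · exact absurd e.symm h'.zw.ne
    · exact Or.inr e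
  rcases hq2 with rfl | rfl <;> rcases hs2 with rfl | rfl
  · exact absurd rfl h'.yw
  · exact Or.inl rfl
  · exact Or.inr (c4_rev _ _ _ _)
  · exact absurd rfl h'.yw

theorem sameSq {x y z w p q r s : V} (h : SqW G x y z w) (h' : SqW G p q r s)
    (hQ : ({x, y, z, w} : Finset V) = {p, q, r, s}) :
    (c4 x y z w : V → V → ℝ) = c4 p q r s ∨ (c4 x y z w : V → V → ℝ) = - c4 p q r s := by
  have hrot : ∀ a b c d : V, ({a, b, c, d} : Finset V) = {b, c, d, a} := by
    intro a b c d
    ext v
    simp only [Finset.mem_insert, Finset.mem_singleton]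
    tauto
  have hp : p ∈ ({x, y, z, w} : Finset V) := by rw [hQ]; simp
  simp only [Finset.mem_insert, Finset.mem_singleton] at hp
  rcases hp with e | e | e | e
  · subst e
    exact sameSq0 h h' hQ
  · subst e
    rw [c4_rot x p z w]
    exact sameSq0 h.rot h' (by rw [← hQ, hrot x])
  · subst e
    rw [c4_rot x y p w, c4_rot y p w x]
    exact sameSq0 h.rot.rot h' (by rw [← hQ, hrot x, hrot y])
  · subst e
    rw [c4_rot x y z p, c4_rot y z p x, c4_rot z p x y]
    exact sameSq0 h.rot.rot.rot h' (by rw [← hQ, hrot x, hrot y, hrot z])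

theorem exists_gen (G : SimpleGraph V) (Q : Finset V) : ∃ g : V → V → ℝ, ∀ x y z w, SqW G x y z w →
    Q = {x, y, z, w} → c4 x y z w = g ∨ c4 x y z w = - g := by
  by_cases h : ∃ p q r s, SqW G p q r s ∧ Q = {p, q, r, s}
  · obtain ⟨p, q, r, s, h1, h2⟩ := h
    exact ⟨c4 p q r s, fun x y z w h3 h4 => sameSq h3 h1 (h4.symm.trans h2)⟩
  · exact ⟨0, fun x y z w h3 h4 => absurd ⟨x, y, z, w, h3, h4⟩ h⟩

/-- the cycle of a square -/
noncomputable def gQ (G : SimpleGraph V) (Q : Finset V) : V → V → ℝ := (exists_gen G Q).choose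

theorem gQ_spec {x y z w : V} (h : SqW G x y z w) :
    c4 x y z w = gQ G {x, y, z, w} ∨ c4 x y z w = - gQ G {x, y, z, w} :=
  (exists_gen G {x, y, z, w}).choose_spec x y z w h rfl

/-- four vertices which span an induced 4-cycle -/
def IsSq (G : SimpleGraph V) (Q : Finset V) : Prop :=
  ∃ x y z w, SqW G x y z w ∧ Q = {x, y, z, w}

/-- the vertices which are adjacent to all elements of `Q` -/
noncomputable def CN (G : SimpleGraph V) (Q : Finset V) : Finset V :=
  Finset.univ.filter fun v => ∀ u ∈ Q, G.Adj v u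

theorem mem_CN {Q : Finset V} {v : V} : v ∈ CN G Q ↔ ∀ u ∈ Q, G.Adj v u := by
  unfold CN
  rw [Finset.mem_filter]
  exact ⟨fun h => h.2, fun h => ⟨Finset.mem_univ _, h⟩⟩

/-- `Q` is a square in `A` and no vertex in `A` is adjacent to its four vertices -/
def SqIn (G : SimpleGraph V) (A : Set V) (Q : Finset V) : Prop :=
  IsSq G Q ∧ (Q : Set V) ⊆ A ∧ ∀ v ∈ CN G Q, v ∉ A

/-- the number of squares in `A` without common neighbours in `A` -/
noncomputable def nsq (G : SimpleGraph V) (A : Set V) : ℕ :=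
  (Finset.univ.filter fun Q : Finset V => SqIn G A Q).card

/-- the span of the squares in `A` -/
noncomputable def GS (G : SimpleGraph V) (A : Set V) : Submodule ℝ (V → V → ℝ) :=
  Submodule.span ℝ (((Finset.univ.filter fun Q : Finset V => SqIn G A Q).image
    (gQ G) : Finset (V → V → ℝ)) : Set (V → V → ℝ))

theorem GS_rank (A : Set V) : finrank ℝ (GS G A) ≤ nsq G A :=
  (finrank_span_finset_le_card _).trans Finset.card_image_le

theorem gQ_mem {A : Set V} {Q : Finset V} (h : SqIn G A Q) : gQ G Q ∈ GS G A := by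
  refine Submodule.subset_span ?_
  rw [Finset.mem_coe, Finset.mem_image]
  exact ⟨Q, Finset.mem_filter.2 ⟨Finset.mem_univ _, h⟩, rfl⟩

theorem t3_mem {A : Set V} {x y z : V} (hx : x ∈ A) (hy : y ∈ A) (hz : z ∈ A) (h1 : G.Adj x y)
    (h2 : G.Adj y z) (h3 : G.Adj x z) : t3 x y z ∈ TS G A :=
  Submodule.subset_span ⟨x, y, z, hx, hy, hz, h1, h2, h3, rfl⟩

theorem c4_mem {A : Set V} {x y z w : V} (hx : x ∈ A) (hy : y ∈ A) (hz : z ∈ A) (hw : w ∈ A)
    (h1 : G.Adj x y) (h2 : G.Adj y z) (h3 : G.Adj z w) (h4 : G.Adj w x) :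
    c4 x y z w ∈ TS G A ⊔ GS G A := by
  by_cases hxz : x = z
  · subst hxz
    have : (c4 x y x w : V → V → ℝ) = 0 := by
      unfold c4
      rw [ed_anti x y, ed_anti x w]
      abel
    rw [this]
    exact Submodule.zero_mem _
  by_cases hyw : y = w
  · subst hyw
    have : (c4 x y z y : V → V → ℝ) = 0 := by
      unfold c4
      rw [ed_anti x y, ed_anti y z]
      abel
    rw [this]
    exact Submodule.zero_mem _
  by_cases axz : G.Adj x z
  · have : (c4 x y z w : V → V → ℝ) = t3 x y z + t3 x z w := by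
      unfold c4 t3
      rw [ed_anti z x]
      abel
    rw [this]
    exact Submodule.mem_sup_left (Submodule.add_mem _ (t3_mem hx hy hz h1 h2 axz)
      (t3_mem hx hz hw axz h3 h4.symm))
  by_cases ayw : G.Adj y w
  · have : (c4 x y z w : V → V → ℝ) = t3 x y w + t3 y z w := by
      unfold c4 t3
      rw [ed_anti w y]
      abel
    rw [this]
    exact Submodule.mem_sup_left (Submodule.add_mem _ (t3_mem hx hy hw h1 ayw h4.symm)
      (t3_mem hy hz hw h2 h3 ayw))
  have hS : SqW G x y z w := ⟨h1, h2, h3, h4, axz, ayw, hxz, hyw⟩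
  by_cases hcn : ∃ v ∈ CN G {x, y, z, w}, v ∈ A
  · obtain ⟨v, hv, hvA⟩ := hcn
    rw [mem_CN] at hv
    have vx : G.Adj v x := hv x (by simp)
    have vy : G.Adj v y := hv y (by simp)
    have vz : G.Adj v z := hv z (by simp)
    have vw : G.Adj v w := hv w (by simp)
    have : (c4 x y z w : V → V → ℝ) = t3 x y v + t3 y z v + t3 z w v + t3 w x v := by
      unfold c4 t3
      rw [ed_anti y v, ed_anti z v, ed_anti w v, ed_anti x v]
      abel
    rw [this]
    exact Submodule.mem_sup_left (Submodule.add_mem _ (Submodule.add_mem _ (Submodule.add_mem _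
      (t3_mem hx hy hvA h1 vy.symm vx.symm) (t3_mem hy hz hvA h2 vz.symm vy.symm))
      (t3_mem hz hw hvA h3 vw.symm vz.symm)) (t3_mem hw hx hvA h4 vx.symm vw.symm))
  have hQ : gQ G {x, y, z, w} ∈ GS G A := by
    refine gQ_mem ⟨⟨x, y, z, w, hS, rfl⟩, ?_, fun v hv hvA => hcn ⟨v, hv, hvA⟩⟩
    intro v hv
    simp only [Finset.coe_insert, Finset.coe_singleton, Set.mem_insert_iff,
      Set.mem_singleton_iff] at hv
    rcases hv with rfl | rfl | rfl | rfl
    · exact hx
    · exact hy
    · exact hz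
    · exact hw
  refine Submodule.mem_sup_right ?_
  rcases gQ_spec hS with e | e
  · rw [e]
    exact hQ
  · rw [e]
    exact Submodule.neg_mem _ hQ

theorem SqSpan_le (A : Set V) : SqSpan G (fun v => v ∈ A) ≤ TS G A ⊔ GS G A := by
  unfold SqSpan
  rw [Submodule.span_le]
  rintro c (⟨x, y, z, hx, hy, hz, h1, h2, h3, rfl⟩ | ⟨x, y, z, w, hx, hy, hz, hw, h1, h2, h3, h4, rfl⟩)
  · rw [edg_eq, edg_eq, edg_eq]
    exact Submodule.mem_sup_left (t3_mem hx hy hz h1 h2 h3.symm)
  · rw [edg_eq, edg_eq, edg_eq, edg_eq]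
    exact c4_mem hx hy hz hw h1 h2 h3 h4

end Pool.Agent.Helper41.SD
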