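import Pool.Agent.Helper41.SD.D2

/-!
The cap product with the fundamental cycle, and the estimate of the first Betti numbers of the full
subcomplexes.
-/

set_option autoImplicit false
set_option linter.unusedSectionVars false

open scoped Classical

namespace Pool.Agent.Helper41.SD

open Pool.Agent.W907.SG Pool.Agent.W907.SM Module Pool.Agent.TH652.Dual
open Pool.Agent.Helper41.SV (edg SqSpan dualC dim4 SqFree alt_swap01 alt_swap23)
open Pool.Agent.Q134.SV (IsCyc)

variable {V : Type} [Fintype V] [LinearOrder V] {G : SimpleGraph V}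

/-- the cycle as a function of the 4-sets -/
noncomputable def oo (a : (Fin 4 → V) → ℝ) : Finset V → ℝ := fun T =>
  if h : T.card = 4 then a (T.orderEmbOfFin h) else 0

theorem oo_sorted (a : (Fin 4 → V) → ℝ) {p q r u : V} (h1 : p < q) (h2 : q < r) (h3 : r < u) :
    oo a {p, q, r, u} = a ![p, q, r, u] := by
  have h12 := h1.trans h2
  have h23 := h2.trans h3
  have h13 := h12.trans h3
  have hc : ({p, q, r, u} : Finset V).card = 4 := by
    rw [Finset.card_insert_of_notMem (by simp [h1.ne, h12.ne, h13.ne]),
      Finset.card_insert_of_notMem (by simp [h2.ne, h23.ne]),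
      Finset.card_insert_of_notMem (by simpa using h3.ne), Finset.card_singleton]
  unfold oo
  rw [dif_pos hc]
  congr 1
  refine (Finset.orderEmbOfFin_unique hc (f := ![p, q, r, u]) ?_ ?_).symm
  · intro i
    fin_cases i <;> simp
  · rw [Fin.strictMono_iff_lt_succ]
    intro i
    fin_cases i
    · exact h1
    · exact h2
    · exact h3

theorem alt_swap12 {a : (Fin 4 → V) → ℝ} (ha : IsCyc 4 G a) (x y s t : V) :
    a ![x, s, y, t] = - a ![x, y, s, t] := by
  rw [← ha.alt ![x, y, s, t] 1 2 (by decide)]
  congr 1
  funext i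
  fin_cases i <;> rfl

theorem supp_ne {a : (Fin 4 → V) → ℝ} (ha : IsCyc 4 G a) {v : Fin 4 → V} {i j : Fin 4} (hij : i ≠ j)
    (h : v i = v j) : a v = 0 := by
  by_contra hn
  exact (ha.supp v hn i j hij).ne h

theorem oS_pair {a : (Fin 4 → V) → ℝ} (ha : IsCyc 4 G a) {x y s t : V} (hxy : x < y) (hst : s < t) :
    oS (oo a) {x, y} {s, t} = a ![x, y, s, t] := by
  unfold oS
  by_cases hd : Disjoint ({x, y} : Finset V) {s, t}
  · rw [if_pos hd, Finset.prod_pair hxy.ne, sg_pair x hst.ne, sg_pair y hst.ne]
    have hxs : x ≠ s := fun e => Finset.disjoint_left.1 hd (by simp) (show x ∈ _ by simp [e])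
    have hxt : x ≠ t := fun e => Finset.disjoint_left.1 hd (by simp) (show x ∈ _ by simp [e])
    have hys : y ≠ s := fun e => Finset.disjoint_left.1 hd (by simp) (show y ∈ _ by simp [e])
    have hyt : y ≠ t := fun e => Finset.disjoint_left.1 hd (by simp) (show y ∈ _ by simp [e])
    have hu : ({x, y} : Finset V) ∪ {s, t} = {x, y, s, t} := by
      ext v
      simp only [Finset.mem_union, Finset.mem_insert, Finset.mem_singleton]
      tauto
    rw [hu]
    rcases lt_or_gt_of_ne hxs with c1 | c1
    · rcases lt_or_gt_of_ne hys with c2 | c2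
      · -- x y s t
        rw [oo_sorted a hxy c2 hst, if_neg (not_lt.2 c1.le), if_neg (not_lt.2 (c1.trans hst).le),
          if_neg (not_lt.2 c2.le), if_neg (not_lt.2 (c2.trans hst).le)]
        norm_num
      · rcases lt_or_gt_of_ne hyt with c3 | c3
        · -- x s y t
          have e : ({x, y, s, t} : Finset V) = {x, s, y, t} := by
            ext v
            simp only [Finset.mem_insert, Finset.mem_singleton]
            tauto
          rw [e, oo_sorted a c1 c2 c3, if_neg (not_lt.2 c1.le), if_neg (not_lt.2 (c1.trans hst).le),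
            if_pos c2, if_neg (not_lt.2 c3.le), alt_swap12 ha x y s t]
          norm_num
        · -- x s t y
          have e : ({x, y, s, t} : Finset V) = {x, s, t, y} := by
            ext v
            simp only [Finset.mem_insert, Finset.mem_singleton]
            tauto
          rw [e, oo_sorted a c1 hst c3, if_neg (not_lt.2 c1.le), if_neg (not_lt.2 (c1.trans hst).le),
            if_pos c2, if_pos c3, alt_swap23 ha x s y t, alt_swap12 ha x y s t]
          norm_num
    · rcases lt_or_gt_of_ne hxt with c2 | c2
      · rcases lt_or_gt_of_ne hyt with c3 | c3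
        · -- s x y t
          have e : ({x, y, s, t} : Finset V) = {s, x, y, t} := by
            ext v
            simp only [Finset.mem_insert, Finset.mem_singleton]
            tauto
          rw [e, oo_sorted a c1 hxy c3, if_pos c1, if_neg (not_lt.2 c2.le), if_pos (c1.trans hxy),
            if_neg (not_lt.2 c3.le), alt_swap01 ha x s y t, alt_swap12 ha x y s t]
          norm_num
        · -- s x t y
          have e : ({x, y, s, t} : Finset V) = {s, x, t, y} := by
            ext v
            simp only [Finset.mem_insert, Finset.mem_singleton]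
            tauto
          rw [e, oo_sorted a c1 c2 c3, if_pos c1, if_neg (not_lt.2 c2.le), if_pos (c1.trans hxy),
            if_pos c3, alt_swap01 ha x s t y, alt_swap23 ha x s y t, alt_swap12 ha x y s t]
          norm_num
      · -- s t x y
        have e : ({x, y, s, t} : Finset V) = {s, t, x, y} := by
          ext v
          simp only [Finset.mem_insert, Finset.mem_singleton]
          tauto
        rw [e, oo_sorted a hst c2 hxy, if_pos c1, if_pos c2, if_pos (c1.trans hxy),
          if_pos (c2.trans hxy), alt_swap12 ha s x t y, alt_swap01 ha x s t y, alt_swap23 ha x s y t,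
          alt_swap12 ha x y s t]
        norm_num
  · rw [if_neg hd]
    have h : x = s ∨ x = t ∨ y = s ∨ y = t := by
      by_contra hc
      push Not at hc
      obtain ⟨h1, h2, h3, h4⟩ := hc
      apply hd
      rw [Finset.disjoint_left]
      intro v hv hv'
      simp only [Finset.mem_insert, Finset.mem_singleton] at hv hv'
      rcases hv with rfl | rfl <;> rcases hv' with e | e
      · exact h1 e
      · exact h2 e
      · exact h3 e
      · exact h4 e
    rcases h with e | e | e | e
    · exact (supp_ne ha (i := 0) (j := 2) (by decide) e).symm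
    · exact (supp_ne ha (i := 0) (j := 3) (by decide) e).symm
    · exact (supp_ne ha (i := 1) (j := 2) (by decide) e).symm
    · exact (supp_ne ha (i := 1) (j := 3) (by decide) e).symm

/-- sums over the sets with two elements -/
theorem sum_pairs (F : Finset V → ℝ) (hF : ∀ S, S.card ≠ 2 → F S = 0) :
    ∑ S, F S = ∑ x, ∑ y, if x < y then F {x, y} else 0 := by
  rw [← Fintype.sum_prod_type' (f := fun x y => if x < y then F {x, y} else 0), ← Finset.sum_filter,
    ← Finset.sum_filter_of_ne (p := fun S : Finset V => S.card = 2)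
      (fun S _ h => by
        by_contra hc
        exact h (hF S hc))]
  symm
  refine Finset.sum_nbij (fun p => {p.1, p.2}) ?_ ?_ ?_ ?_
  · rintro ⟨x, y⟩ h
    rw [Finset.mem_filter] at h ⊢
    exact ⟨Finset.mem_univ _, Finset.card_pair h.2.ne⟩
  · rintro ⟨x, y⟩ h ⟨x', y'⟩ h' e
    rw [Finset.mem_coe, Finset.mem_filter] at h h'
    obtain ⟨e1, e2⟩ := (pair_eq h.2 h'.2).1 e
    simp only at e1 e2
    rw [e1, e2]
  · intro S hS
    rw [Finset.mem_coe, Finset.mem_filter] at hS
    obtain ⟨x, y, hxy, rfl⟩ := Finset.card_eq_two.1 hS.2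
    rcases lt_or_gt_of_ne hxy with h | h
    · exact ⟨(x, y), by simpa using h, rfl⟩
    · exact ⟨(y, x), by simpa using h, Finset.pair_comm _ _⟩
  · rintro ⟨x, y⟩ h
    rfl

/-- the cap product with the cycle -/
noncomputable def Dm (G : SimpleGraph V) (A : Set V) (o : Finset V → ℝ) :
    (Finset V → ℝ) →ₗ[ℝ] (Finset V → ℝ) where
  toFun m := fun R : Finset V => if G.IsClique (R : Set V) ∧ (R : Set V) ⊆ A then
    ∑ S : Finset V, ((-1 : ℝ) ^ S.card) * (oS o S R * m S) else 0
  map_add' m m' := by
    funext R
    simp only [Pi.add_apply]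
    split_ifs
    · rw [← Finset.sum_add_distrib]
      refine Finset.sum_congr rfl fun S _ => ?_
      ring
    · ring
  map_smul' r m := by
    funext R
    simp only [Pi.smul_apply, smul_eq_mul, RingHom.id_apply]
    split_ifs
    · rw [Finset.mul_sum]
      refine Finset.sum_congr rfl fun S _ => ?_
      ring
    · ring

theorem Dm_apply (A : Set V) (o m : Finset V → ℝ) (R : Finset V) :
    Dm G A o m R = if G.IsClique (R : Set V) ∧ (R : Set V) ⊆ A then
      ∑ S : Finset V, ((-1 : ℝ) ^ S.card) * (oS o S R * m S) else 0 := rfl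

/-- the 1-cocycles of the full subcomplex on `B` -/
def ZC (G : SimpleGraph V) (B : Set V) : Submodule ℝ (Finset V → ℝ) where
  carrier := {m | (∀ S : Finset V, ¬ (G.IsClique (S : Set V) ∧ (S : Set V) ⊆ B ∧ S.card = 2) →
      m S = 0) ∧ (∀ S : Finset V, G.IsClique (S : Set V) → (S : Set V) ⊆ B →
        ∑ s ∈ S, (sg s (S.erase s) : ℝ) * m (S.erase s) = 0)}
  add_mem' := by
    rintro m m' ⟨h1, h2⟩ ⟨h3, h4⟩
    refine ⟨fun S hS => by rw [Pi.add_apply, h1 S hS, h3 S hS, add_zero], fun S hS hB => ?_⟩
    have e : ∀ s ∈ S, (sg s (S.erase s) : ℝ) * (m + m') (S.erase s) =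
        (sg s (S.erase s) : ℝ) * m (S.erase s) + (sg s (S.erase s) : ℝ) * m' (S.erase s) := by
      intro s _
      rw [Pi.add_apply]
      ring
    rw [Finset.sum_congr rfl e, Finset.sum_add_distrib, h2 S hS hB, h4 S hS hB, add_zero]
  zero_mem' := ⟨fun _ _ => rfl, fun S _ _ => by simp⟩
  smul_mem' := by
    rintro r m ⟨h1, h2⟩
    refine ⟨fun S hS => by rw [Pi.smul_apply, h1 S hS, smul_zero], fun S hS hB => ?_⟩
    have e : ∀ s ∈ S, (sg s (S.erase s) : ℝ) * (r • m) (S.erase s) =
        r * ((sg s (S.erase s) : ℝ) * m (S.erase s)) := by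
      intro s _
      rw [Pi.smul_apply, smul_eq_mul]
      ring
    rw [Finset.sum_congr rfl e, ← Finset.mul_sum, h2 S hS hB, mul_zero]

theorem mem_ZC {B : Set V} {m : Finset V → ℝ} : m ∈ ZC G B ↔
    (∀ S : Finset V, ¬ (G.IsClique (S : Set V) ∧ (S : Set V) ⊆ B ∧ S.card = 2) → m S = 0) ∧
    (∀ S : Finset V, G.IsClique (S : Set V) → (S : Set V) ⊆ B →
        ∑ s ∈ S, (sg s (S.erase s) : ℝ) * m (S.erase s) = 0) := Iff.rfl

theorem Km_supp {B : Set V} {m : Finset V → ℝ} (hm : m ∈ ZC G B) {x y : V}
    (h : ¬ (x ∈ B ∧ y ∈ B)) : Km m x y = 0 := by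
  have h0 : m {x, y} = 0 := by
    refine hm.1 _ fun h' => h ⟨h'.2.1 (by simp), h'.2.1 (by simp)⟩
  rw [Km_apply, h0, neg_zero, ite_self, ite_self]

theorem dualC_pos (A : V → Prop) (φ : V → V → ℝ) (a : (Fin 4 → V) → ℝ)
    (hφ : ∀ x y, ¬ (A x ∧ A y) → φ x y = 0) {s t : V} (h : ¬ A s ∧ ¬ A t) :
    dualC A φ a s t = ∑ x, ∑ y, φ x y * a ![x, y, s, t] := by
  unfold dualC
  rw [if_pos h]
  refine Finset.sum_congr rfl fun x _ => Finset.sum_congr rfl fun y _ => ?_
  by_cases h' : A x ∧ A y
  · rw [if_pos h']
  · rw [if_neg h', hφ x y h']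

theorem dualC_neg (A : V → Prop) (φ : V → V → ℝ) (a : (Fin 4 → V) → ℝ) {s t : V}
    (h : ¬ (¬ A s ∧ ¬ A t)) : dualC A φ a s t = 0 := by
  unfold dualC
  rw [if_neg h]

theorem Km_Dm {a : (Fin 4 → V) → ℝ} (ha : IsCyc 4 G a) (A : Set V) {m : Finset V → ℝ}
    (hm : m ∈ ZC G Aᶜ) :
    Km (Dm G A (oo a) m) = (1 / 2 : ℝ) • dualC (fun v => v ∉ A) (Km m) a := by
  have hanti : ∀ s t, dualC (fun v => v ∉ A) (Km m) a s t =
      - dualC (fun v => v ∉ A) (Km m) a t s := fun s t =>
    Pool.Agent.Helper41.SV.dualC_anti (fun v => v ∉ A) (Km m) ha s t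
  have key : ∀ s t, s < t → Dm G A (oo a) m {s, t} =
      (1 / 2 : ℝ) * dualC (fun v => v ∉ A) (Km m) a s t := by
    intro s t hst
    rw [Dm_apply]
    by_cases hA : s ∈ A ∧ t ∈ A
    · rw [dualC_pos (fun v => v ∉ A) (Km m) a (fun x y h => Km_supp hm h)
        (show ¬ (s ∉ A) ∧ ¬ (t ∉ A) from ⟨not_not.2 hA.1, not_not.2 hA.2⟩)]
      by_cases hadj : G.Adj s t
      · have hcl : G.IsClique ((({s, t} : Finset V)) : Set V) ∧ (({s, t} : Finset V) : Set V) ⊆ A := by
          refine ⟨?_, ?_⟩
          · rw [Finset.coe_pair]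
            exact SimpleGraph.isClique_pair.2 fun _ => hadj
          · intro v hv
            simp only [Finset.coe_insert, Finset.coe_singleton, Set.mem_insert_iff,
              Set.mem_singleton_iff] at hv
            rcases hv with rfl | rfl
            · exact hA.1
            · exact hA.2
        rw [if_pos hcl, sum_pairs]
        · have e2 : ∀ x y : V, Km m x y * a ![x, y, s, t] =
              (if x < y then m {x, y} * a ![x, y, s, t] else 0) +
                (if y < x then m {y, x} * a ![y, x, s, t] else 0) := by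
            intro x y
            rw [Km_apply]
            rcases lt_trichotomy x y with h | h | h
            · rw [if_pos h, if_pos h, if_neg (not_lt.2 h.le), add_zero]
            · subst h
              simp
            · rw [if_neg (not_lt.2 h.le), if_pos h, if_neg (not_lt.2 h.le), if_pos h, zero_add,
                Finset.pair_comm x y, alt_swap01 ha x y s t]
              ring
          simp only [e2, Finset.sum_add_distrib]
          rw [Finset.sum_comm (f := fun x y : V => if y < x then m {y, x} * a ![y, x, s, t] else 0)]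
          have e3 : ∀ x y : V, (if x < y then ((-1 : ℝ) ^ ({x, y} : Finset V).card) *
              (oS (oo a) {x, y} {s, t} * m {x, y}) else 0) =
              if x < y then m {x, y} * a ![x, y, s, t] else 0 := by
            intro x y
            by_cases h : x < y
            · rw [if_pos h, if_pos h, Finset.card_pair h.ne, oS_pair ha h hst]
              ring
            · rw [if_neg h, if_neg h]
          simp only [e3]
          ring
        · intro S hS
          rw [hm.1 S fun h => hS h.2.2, mul_zero, mul_zero]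
      · rw [if_neg]
        · symm
          rw [mul_eq_zero]
          right
          refine Finset.sum_eq_zero fun x _ => Finset.sum_eq_zero fun y _ => ?_
          have : a ![x, y, s, t] = 0 := by
            by_contra hn
            exact hadj (ha.supp _ hn 2 3 (by decide))
          rw [this, mul_zero]
        · rintro ⟨h1, _⟩
          exact hadj (h1 (by simp) (by simp) hst.ne)
    · rw [if_neg, dualC_neg, mul_zero]
      · intro h
        exact hA ⟨not_not.1 h.1, not_not.1 h.2⟩
      · rintro ⟨_, h⟩
        exact hA ⟨h (by simp), h (by simp)⟩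
  funext s t
  rw [Km_apply]
  simp only [Pi.smul_apply, smul_eq_mul]
  rcases lt_trichotomy s t with h | h | h
  · rw [if_pos h, key s t h]
  · subst h
    rw [if_neg (lt_irrefl _), if_neg (lt_irrefl _)]
    have := hanti s s
    linarith
  · rw [if_neg (not_lt.2 h.le), if_pos h, Finset.pair_comm, key t s h, hanti s t]
    ring

end Pool.Agent.Helper41.SD
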