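import Pool.Agent.Helper41.SD.D3

/-!
The fundamental cycle as a chain on finite sets, and the estimate of the first Betti numbers of the
full subcomplexes.
-/

set_option autoImplicit false
set_option linter.unusedSectionVars false

open scoped Classical

namespace Pool.Agent.Helper41.SD

open Pool.Agent.W907.SG Pool.Agent.W907.SM Module Pool.Agent.TH652.Dual
open Pool.Agent.Helper41.SV (edg SqSpan dualC dim4 SqFree GA alt_swap01 alt_swap23)
open Pool.Agent.Q134.SV (IsCyc par)
open Pool.Agent.N13.QC (svol)

variable {V : Type} [Fintype V] [LinearOrder V] {G : SimpleGraph V}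

theorem exists_sorted3 {T : Finset V} (h : T.card = 3) :
    ∃ p q r, p < q ∧ q < r ∧ T = {p, q, r} := by
  refine ⟨T.orderEmbOfFin h 0, T.orderEmbOfFin h 1, T.orderEmbOfFin h 2,
    (T.orderEmbOfFin h).strictMono (by decide), (T.orderEmbOfFin h).strictMono (by decide), ?_⟩
  have h1 := Finset.image_orderEmbOfFin_univ T h
  conv_lhs => rw [← h1]
  ext v
  simp only [Finset.mem_image, Finset.mem_univ, true_and, Finset.mem_insert, Finset.mem_singleton]
  constructor
  · rintro ⟨i, rfl⟩
    fin_cases i
    · exact Or.inl rfl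
    · exact Or.inr (Or.inl rfl)
    · exact Or.inr (Or.inr rfl)
  · rintro (rfl | rfl | rfl)
    · exact ⟨0, rfl⟩
    · exact ⟨1, rfl⟩
    · exact ⟨2, rfl⟩

theorem sg_three (u : V) {x y z : V} (h1 : x ≠ y) (h2 : y ≠ z) (h3 : x ≠ z) :
    sg u ({x, y, z} : Finset V) = (if x < u then -1 else 1) * ((if y < u then -1 else 1) *
      (if z < u then -1 else 1)) := by
  rw [sg_insert u x {y, z} (by simp [h1, h3]), sg_pair u h2]

theorem oo_insert {a : (Fin 4 → V) → ℝ} (ha : IsCyc 4 G a) {p q r v : V} (h1 : p < q) (h2 : q < r)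
    (hp : v ≠ p) (hq : v ≠ q) (hr : v ≠ r) :
    (sg v ({p, q, r} : Finset V) : ℝ) * oo a (insert v {p, q, r}) = a ![v, p, q, r] := by
  rw [sg_three v h1.ne h2.ne (h1.trans h2).ne]
  rcases lt_or_gt_of_ne hp with c1 | c1
  · -- v p q r
    rw [oo_sorted a c1 h1 h2, if_neg (not_lt.2 c1.le), if_neg (not_lt.2 (c1.trans h1).le),
      if_neg (not_lt.2 ((c1.trans h1).trans h2).le)]
    norm_num
  · rcases lt_or_gt_of_ne hq with c2 | c2
    · -- p v q r
      have e : (insert v {p, q, r} : Finset V) = {p, v, q, r} := by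
        ext w
        simp only [Finset.mem_insert, Finset.mem_singleton]
        tauto
      rw [e, oo_sorted a c1 c2 h2, if_pos c1, if_neg (not_lt.2 c2.le),
        if_neg (not_lt.2 (c2.trans h2).le), alt_swap01 ha v p q r]
      norm_num
    · rcases lt_or_gt_of_ne hr with c3 | c3
      · -- p q v r
        have e : (insert v {p, q, r} : Finset V) = {p, q, v, r} := by
          ext w
          simp only [Finset.mem_insert, Finset.mem_singleton]
          tauto
        rw [e, oo_sorted a h1 c2 c3, if_pos c1, if_pos c2, if_neg (not_lt.2 c3.le),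
          alt_swap12 ha p v q r, alt_swap01 ha v p q r]
        norm_num
      · -- p q r v
        have e : (insert v {p, q, r} : Finset V) = {p, q, r, v} := by
          ext w
          simp only [Finset.mem_insert, Finset.mem_singleton]
          tauto
        rw [e, oo_sorted a h1 h2 c3, if_pos c1, if_pos c2, if_pos c3, alt_swap23 ha p q v r,
          alt_swap12 ha p v q r, alt_swap01 ha v p q r]
        norm_num

theorem oo_supp {a : (Fin 4 → V) → ℝ} (ha : IsCyc 4 G a) {T : Finset V} (h : oo a T ≠ 0) :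
    G.IsClique (T : Set V) ∧ T.card = 4 := by
  unfold oo at h
  by_cases hc : T.card = 4
  · rw [dif_pos hc] at h
    refine ⟨?_, hc⟩
    intro u hu v hv huv
    have h1 : u ∈ Set.range (T.orderEmbOfFin hc) := by
      rw [Finset.range_orderEmbOfFin]
      exact hu
    have h2 : v ∈ Set.range (T.orderEmbOfFin hc) := by
      rw [Finset.range_orderEmbOfFin]
      exact hv
    obtain ⟨i, rfl⟩ := h1
    obtain ⟨j, rfl⟩ := h2
    exact ha.supp _ h i j fun e => huv (by rw [e])
  · rw [dif_neg hc] at h
    exact absurd rfl h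

theorem oo_mem {a : (Fin 4 → V) → ℝ} (ha : IsCyc 4 G a) : oo a ∈ ZZ G (triv V) (lk G ∅) ∅ 4 := by
  refine ⟨?_, ?_⟩
  · rw [SetLike.mem_coe, mem_KK_triv]
    intro T hT
    by_contra h
    obtain ⟨h1, h2⟩ := oo_supp ha h
    exact hT ⟨h1, fun v _ u hu => absurd hu (Finset.notMem_empty u), h2⟩
  · change bd ℝ (oo a) = 0
    funext T
    rw [bd_apply, Pi.zero_apply]
    by_cases hT : T.card = 3
    · obtain ⟨p, q, r, h1, h2, rfl⟩ := exists_sorted3 hT
      have h3 := ha.cyc ![p, p, q, r] 0
      have h4 : ∀ x, Function.update ![p, p, q, r] 0 x = ![x, p, q, r] := by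
        intro x
        funext i
        fin_cases i <;> rfl
      simp only [h4] at h3
      rw [← h3, ← Finset.sum_add_sum_compl ({p, q, r} : Finset V) (fun x => a ![x, p, q, r])]
      have h5 : ∑ x ∈ ({p, q, r} : Finset V), a ![x, p, q, r] = 0 := by
        refine Finset.sum_eq_zero fun x hx => ?_
        simp only [Finset.mem_insert, Finset.mem_singleton] at hx
        rcases hx with e | e | e
        · exact supp_ne ha (i := 0) (j := 1) (by decide) e
        · exact supp_ne ha (i := 0) (j := 2) (by decide) e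
        · exact supp_ne ha (i := 0) (j := 3) (by decide) e
      rw [h5, zero_add]
      refine Finset.sum_congr rfl fun v hv => ?_
      rw [Finset.mem_compl] at hv
      simp only [Finset.mem_insert, Finset.mem_singleton, not_or] at hv
      rw [zsmul_eq_mul, oo_insert ha h1 h2 hv.1 hv.2.1 hv.2.2]
    · refine Finset.sum_eq_zero fun v hv => ?_
      have : oo a (insert v T) = 0 := by
        by_contra h
        have h2 := (oo_supp ha h).2
        rw [Finset.card_insert_of_notMem (by simpa using hv)] at h2
        omega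
      rw [this, smul_zero]

theorem exists_sorted_perm {a : (Fin 4 → V) → ℝ} (ha : IsCyc 4 G a) (v : Fin 4 → V) (hv : a v ≠ 0) :
    ∃ w : Fin 4 → V, StrictMono w ∧ a w ≠ 0 := by
  have hinj : Function.Injective v := by
    intro i j hij
    by_contra hne
    exact (ha.supp v hv i j hne).ne hij
  have key : ∀ σ : Equiv.Perm (Fin 4), a (v ∘ σ) ≠ 0 := by
    intro σ
    refine Equiv.Perm.swap_induction_on' σ ?_ ?_
    · exact hv
    · intro f x y hxy h
      rw [Equiv.Perm.coe_mul, ← Function.comp_assoc, ha.alt (v ∘ f) x y hxy]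
      exact neg_ne_zero.2 h
  exact ⟨v ∘ Tuple.sort v, (Tuple.monotone_sort v).strictMono_of_injective
    (hinj.comp (Tuple.sort v).injective), key _⟩

theorem oo_ne {a : (Fin 4 → V) → ℝ} (ha : IsCyc 4 G a) (h0 : a ≠ 0) : oo a ≠ 0 := by
  obtain ⟨v, hv⟩ : ∃ v, a v ≠ 0 := by
    by_contra h
    push Not at h
    exact h0 (funext h)
  obtain ⟨w, hw1, hw2⟩ := exists_sorted_perm ha v hv
  intro h
  have h1 := congrFun h {w 0, w 1, w 2, w 3}
  rw [oo_sorted a (hw1 (by decide)) (hw1 (by decide)) (hw1 (by decide)), Pi.zero_apply] at h1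
  apply hw2
  rw [← h1]
  congr 1
  funext i
  fin_cases i <;> rfl

end Pool.Agent.Helper41.SD
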