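import Pool.Agent.Helper41.SD.D4

/-!
If the simplicial volume vanishes then the first Betti number of every full subcomplex is at most the
number of squares in the subcomplex and in its complement.
-/

set_option autoImplicit false
set_option linter.unusedSectionVars false

open scoped Classical

namespace Pool.Agent.Helper41.SD

open Pool.Agent.W907.SG Pool.Agent.W907.SM Module Pool.Agent.TH652.Dual
open Pool.Agent.Helper41.SV (edg SqSpan dualC dim4 SqFree GA alt_swap01 alt_swap23)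
open Pool.Agent.Q134.SV (IsCyc par)
open Pool.Agent.N13.QC (svol)
open Pool.Agent.W397.SG (rank_null)

section lin

variable {X Y Z : Type} [AddCommGroup X] [Module ℝ X] [FiniteDimensional ℝ X] [AddCommGroup Y]
  [Module ℝ Y] [FiniteDimensional ℝ Y] [AddCommGroup Z] [Module ℝ Z] [FiniteDimensional ℝ Z]

theorem lin (f : X →ₗ[ℝ] Y) (E : X →ₗ[ℝ] Z) (T : Submodule ℝ X) (N : Submodule ℝ Y)
    (h : T ⊓ LinearMap.ker E ≤ N.comap f) :
    finrank ℝ (N ⊔ T.map f : Submodule ℝ Y) ≤ finrank ℝ N + finrank ℝ (T.map E) := by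
  have r1 := rank_null (N.mkQ ∘ₗ f) T
  have r2 := rank_null E T
  have r3 := rank_null N.mkQ (N ⊔ T.map f)
  have h1 : T ⊓ LinearMap.ker E ≤ T ⊓ LinearMap.ker (N.mkQ ∘ₗ f) := by
    intro x hx
    refine ⟨hx.1, ?_⟩
    have h2 : f x ∈ N := h hx
    change (N.mkQ ∘ₗ f) x = 0
    rw [LinearMap.comp_apply, Submodule.mkQ_apply, (Submodule.Quotient.mk_eq_zero N).2 h2]
  have h2 := Submodule.finrank_mono h1
  have h3 : (N ⊔ T.map f) ⊓ LinearMap.ker N.mkQ = N := by
    rw [Submodule.ker_mkQ]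
    exact inf_eq_right.2 le_sup_left
  have h4 : (N ⊔ T.map f).map N.mkQ = T.map (N.mkQ ∘ₗ f) := by
    rw [Submodule.map_sup, Submodule.mkQ_map_self, bot_sup_eq, Submodule.map_comp]
  rw [h3, h4] at r3
  omega

end lin

variable {V : Type} [Fintype V] [LinearOrder V] {G : SimpleGraph V}

/-- the pairing with an antisymmetric function -/
noncomputable def Lf (ψ : V → V → ℝ) : (V → V → ℝ) →ₗ[ℝ] ℝ where
  toFun c := ∑ s, ∑ t, ψ s t * c s t
  map_add' c d := by
    simp only [Pi.add_apply, mul_add, Finset.sum_add_distrib]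
  map_smul' r c := by
    simp only [Pi.smul_apply, smul_eq_mul, RingHom.id_apply, Finset.mul_sum]
    refine Finset.sum_congr rfl fun s _ => Finset.sum_congr rfl fun t _ => ?_
    ring

theorem Lf_apply (ψ c : V → V → ℝ) : Lf ψ c = ∑ s, ∑ t, ψ s t * c s t := rfl

theorem Lf_ed (ψ : V → V → ℝ) (x y : V) : Lf ψ (ed x y) = ψ x y - ψ y x := by
  rw [Lf_apply]
  unfold ed
  simp only [mul_sub, Finset.sum_sub_distrib]
  have h : ∀ p q : V, ∑ s, ∑ t, ψ s t * (if s = p ∧ t = q then (1 : ℝ) else 0) = ψ p q := by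
    intro p q
    rw [Finset.sum_eq_single p, Finset.sum_eq_single q]
    · rw [if_pos ⟨rfl, rfl⟩, mul_one]
    · intro b _ hb
      rw [if_neg (fun h => hb h.2), mul_zero]
    · intro h
      exact absurd (Finset.mem_univ _) h
    · intro b _ hb
      refine Finset.sum_eq_zero fun t _ => ?_
      rw [if_neg (fun h => hb h.1), mul_zero]
    · intro h
      exact absurd (Finset.mem_univ _) h
  rw [h, h]

theorem coc_tri {B : Set V} {m : Finset V → ℝ} (hm : m ∈ ZC G B) {x y z : V} (hx : x ∈ B) (hy : y ∈ B)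
    (hz : z ∈ B) (hxy : G.Adj x y) (hyz : G.Adj y z) (hxz : G.Adj x z) :
    Km m x y + Km m y z + Km m z x = 0 := by
  have key : x ∈ B → y ∈ B → z ∈ B → G.Adj x y → G.Adj y z → G.Adj x z →
      Km m x y + Km m y z + Km m z x = 0 := by
    refine wlog3 (P := fun x y z => x ∈ B → y ∈ B → z ∈ B → G.Adj x y → G.Adj y z → G.Adj x z →
      Km m x y + Km m y z + Km m z x = 0) ?_ ?_ ?_ hxy.ne hyz.ne hxz.ne
    · intro x y z h hy hz hx hyz hzx hyx
      have := h hx hy hz hyx.symm hyz hzx.symm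
      linarith
    · intro x y z h hy hx hz hyx hxz hyz
      have := h hx hy hz hyx.symm hyz hxz
      rw [Km_anti m y x, Km_anti m x z, Km_anti m z y]
      linarith
    · intro x y z h1 h2 hx hy hz hxy hyz hxz
      have hS : G.IsClique (({x, y, z} : Finset V) : Set V) := by
        intro u hu v hv huv
        simp only [Finset.coe_insert, Finset.coe_singleton, Set.mem_insert_iff,
          Set.mem_singleton_iff] at hu hv
        rcases hu with rfl | rfl | rfl <;> rcases hv with rfl | rfl | rfl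
        · exact absurd rfl huv
        · exact hxy
        · exact hxz
        · exact hxy.symm
        · exact absurd rfl huv
        · exact hyz
        · exact hxz.symm
        · exact hyz.symm
        · exact absurd rfl huv
      have hB : (({x, y, z} : Finset V) : Set V) ⊆ B := by
        intro v hv
        simp only [Finset.coe_insert, Finset.coe_singleton, Set.mem_insert_iff,
          Set.mem_singleton_iff] at hv
        rcases hv with rfl | rfl | rfl
        · exact hx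
        · exact hy
        · exact hz
      have h3 := hm.2 _ hS hB
      obtain ⟨e1, e2, e3⟩ := erase_tri h1.ne h2.ne (h1.trans h2).ne
      obtain ⟨s1, s2, s3⟩ := sg_tri h1 h2
      rw [sum_tri _ h1.ne h2.ne (h1.trans h2).ne, e1, e2, e3, s1, s2, s3] at h3
      rw [Km_lt m h1, Km_lt m h2, Km_anti m z x, Km_lt m (h1.trans h2)]
      push_cast at h3
      linarith
  exact key hx hy hz hxy hyz hxz

theorem TS_ker {B : Set V} {m : Finset V → ℝ} (hm : m ∈ ZC G B) : TS G B ≤ LinearMap.ker (Lf (Km m)) := by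
  unfold TS
  rw [Submodule.span_le]
  rintro _ ⟨x, y, z, hx, hy, hz, hxy, hyz, hxz, rfl⟩
  rw [SetLike.mem_coe, LinearMap.mem_ker]
  have h := coc_tri hm hx hy hz hxy hyz hxz
  unfold t3
  rw [map_add, map_add, Lf_ed, Lf_ed, Lf_ed, Km_anti m y x, Km_anti m z y, Km_anti m x z]
  linarith

theorem sqfree_of {A : Set V} {m : Finset V → ℝ} (hm : m ∈ ZC G Aᶜ)
    (hE : ∀ Q, SqIn G Aᶜ Q → Lf (Km m) (gQ G Q) = 0) :
    SqFree (GA G fun v => v ∉ A) fun a b => Km m a.1 b.1 := by
  have hG : TS G Aᶜ ⊔ GS G Aᶜ ≤ LinearMap.ker (Lf (Km m)) := by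
    refine sup_le (TS_ker hm) ?_
    unfold GS
    rw [Submodule.span_le]
    intro c hc
    rw [Finset.mem_coe, Finset.mem_image] at hc
    obtain ⟨Q, hQ, rfl⟩ := hc
    rw [Finset.mem_filter] at hQ
    exact hE Q hQ.2
  refine ⟨fun a b => Km_anti m _ _, ?_, ?_⟩
  · intro a b c h1 h2 h3
    have h := coc_tri hm (x := a.1) (y := b.1) (z := c.1) a.2 b.2 c.2 h1 h2 h3
    rw [Km_anti m c.1 a.1] at h
    linarith
  · intro a b z z' h1 h2 h3 h4
    have h1' : G.Adj a.1 z.1 := h1
    have h2' : G.Adj z.1 b.1 := h2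
    have h3' : G.Adj a.1 z'.1 := h3
    have h4' : G.Adj z'.1 b.1 := h4
    have h5 : Lf (Km m) (c4 a.1 z.1 b.1 z'.1) = 0 :=
      hG (c4_mem (A := Aᶜ) a.2 z.2 b.2 z'.2 h1' h2' h4'.symm h3'.symm)
    unfold c4 at h5
    rw [map_add, map_add, map_add, Lf_ed, Lf_ed, Lf_ed, Lf_ed, Km_anti m z.1 a.1,
      Km_anti m b.1 z.1, Km_anti m b.1 z'.1, Km_anti m z'.1 a.1] at h5
    linarith

/-- the values of a cocycle at the squares in `B` -/
noncomputable def EQ (G : SimpleGraph V) (B : Set V) :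
    (Finset V → ℝ) →ₗ[ℝ] ({Q : Finset V // SqIn G B Q} → ℝ) where
  toFun m Q := ∑ s, ∑ t, Km m s t * gQ G Q.1 s t
  map_add' m m' := by
    funext Q
    simp only [map_add, Pi.add_apply, add_mul, Finset.sum_add_distrib]
  map_smul' r m := by
    funext Q
    simp only [map_smul, Pi.smul_apply, smul_eq_mul, RingHom.id_apply, Finset.mul_sum]
    refine Finset.sum_congr rfl fun s _ => Finset.sum_congr rfl fun t _ => ?_
    ring

theorem EQ_rank (B : Set V) (T : Submodule ℝ (Finset V → ℝ)) :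
    finrank ℝ (T.map (EQ G B)) ≤ nsq G B := by
  refine (Submodule.finrank_le _).trans ?_
  rw [Module.finrank_fintype_fun_eq_card, Fintype.card_subtype]
  unfold nsq
  refine le_of_eq ?_
  congr

theorem Km_rank (A : Set V) : finrank ℝ (ZZ G (triv V) A ∅ 2) =
    finrank ℝ ((ZZ G (triv V) A ∅ 2).map Km) := by
  have h := rank_null (Km (V := V)) (ZZ G (triv V) A ∅ 2)
  have h0 : ZZ G (triv V) A ∅ 2 ⊓ LinearMap.ker (Km (V := V)) = ⊥ := by
    rw [eq_bot_iff]
    rintro z ⟨⟨h1, _⟩, h2⟩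
    rw [SetLike.mem_coe, mem_KK_triv] at h1
    rw [Submodule.mem_bot]
    funext T
    by_cases hT : T.card = 2
    · obtain ⟨x, y, hxy, rfl⟩ := Finset.card_eq_two.1 hT
      have h3 : Km z = 0 := h2
      rcases lt_or_gt_of_ne hxy with h | h
      · rw [← Km_lt z h, h3]
        rfl
      · rw [Finset.pair_comm, ← Km_lt z h, h3]
        rfl
    · exact h1 T fun h => hT h.2.2
  rw [h0, finrank_bot, zero_add] at h
  exact h.symm

/-- The estimate of the Betti numbers. -/
theorem betti (hS : Sph 4 G) {a : (Fin 4 → V) → ℝ} (ha : IsCyc 4 G a) (h0 : a ≠ 0)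
    (hd : ∀ (B : V → Prop) (φ : V → V → ℝ), SqFree (GA G B) (fun a b => φ a.1 b.1) →
      dualC B φ a ∈ SqSpan G fun v => ¬ B v)
    (A : Set V) : beta G (triv V) A ∅ 2 ≤ nsq G A + nsq G Aᶜ := by
  set N : Submodule ℝ (V → V → ℝ) := (BB G (triv V) A ∅ 2).map Km ⊔ GS G A with hN
  have hker : ZC G Aᶜ ⊓ LinearMap.ker (EQ G Aᶜ) ≤ N.comap (Km ∘ₗ Dm G A (oo a)) := by
    rintro m ⟨hm, hE⟩
    rw [Submodule.mem_comap, LinearMap.comp_apply, Km_Dm ha A hm]
    refine Submodule.smul_mem _ _ ?_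
    have hE' : EQ G Aᶜ m = 0 := hE
    have h1 := sqfree_of hm fun Q hQ => congrFun hE' ⟨Q, hQ⟩
    have h2 := hd (fun v => v ∉ A) (Km m) h1
    have h3 : (fun v => ¬ v ∉ A) = fun v => v ∈ A := by
      funext v
      exact propext not_not
    rw [h3] at h2
    exact (sup_le ((TS_le A).trans le_sup_left) le_sup_right : TS G A ⊔ GS G A ≤ N)
      (SqSpan_le A h2)
  have h1 := lin (Km ∘ₗ Dm G A (oo a)) (EQ G Aᶜ) (ZC G Aᶜ) N hker
  have h2 : (ZZ G (triv V) A ∅ 2).map Km ≤ N ⊔ (ZC G Aᶜ).map (Km ∘ₗ Dm G A (oo a)) := by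
    rintro _ ⟨z, hz, rfl⟩
    obtain ⟨m, m1, m2, m3⟩ := alexander A hS (oo_mem ha) (oo_ne ha h0) (i := 2) (j := 2) rfl hz
    have hm : m ∈ ZC G Aᶜ := ⟨m1, m2⟩
    have e : z = (z - Dm G A (oo a) m) + Dm G A (oo a) m := by
      rw [sub_add_cancel]
    rw [e, map_add]
    refine Submodule.add_mem _ ?_ ?_
    · exact Submodule.mem_sup_left (Submodule.mem_sup_left (Submodule.mem_map_of_mem m3))
    · exact Submodule.mem_sup_right ⟨m, hm, rfl⟩
  have h3 := Submodule.finrank_mono h2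
  rw [← Km_rank] at h3
  have h4 : finrank ℝ N ≤ finrank ℝ (BB G (triv V) A ∅ 2) + nsq G A := by
    have h5 := Submodule.finrank_add_le_finrank_add_finrank ((BB G (triv V) A ∅ 2).map Km) (GS G A)
    have h6 := Submodule.finrank_map_le (Km (V := V)) (BB G (triv V) A ∅ 2)
    have h7 := GS_rank (G := G) A
    rw [← hN] at h5
    omega
  have h5 := EQ_rank (G := G) Aᶜ (ZC G Aᶜ)
  unfold beta
  omega

end Pool.Agent.Helper41.SD
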