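import Pool.Agent.Helper41.SD.D5

/-!
The Euler characteristic of the Coxeter group as an alternating sum of the Betti numbers of the full
subcomplexes, and the inequality between the Euler characteristic and the number of squares.
-/

set_option autoImplicit false
set_option linter.unusedSectionVars false

open scoped Classical

namespace Pool.Agent.Helper41.SD

open Pool.Agent.W907.SG Pool.Agent.W907.SM Module Pool.Agent.TH652.Dual
open Pool.Agent.Q134.SV (IsCyc par)
open Pool.Agent.N13.QC (svol)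
open Pool.Agent.W397.SG (rank_null euler)

variable {V : Type} [Fintype V] [LinearOrder V] {G : SimpleGraph V}

theorem KK_dim (A : Set V) (i : ℕ) : finrank ℝ (KK G (triv V) A ∅ i) =
    (Finset.univ.filter fun T : Finset V => (G.IsClique (T : Set V) ∧ (T : Set V) ⊆ A) ∧
      T.card = i).card := by
  let f : KK G (triv V) A ∅ i →ₗ[ℝ] ({T : Finset V // (G.IsClique (T : Set V) ∧ (T : Set V) ⊆ A) ∧
      T.card = i} → ℝ) :=
    { toFun := fun z T => z.1 T.1
      map_add' := fun z z' => rfl
      map_smul' := fun r z => rfl }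
  have hf : Function.Bijective f := by
    constructor
    · intro z z' h
      apply Subtype.ext
      funext T
      by_cases hT : (G.IsClique (T : Set V) ∧ (T : Set V) ⊆ A) ∧ T.card = i
      · exact congrFun h ⟨T, hT⟩
      · rw [mem_KK_triv.1 z.2 T fun h => hT ⟨⟨h.1, h.2.1⟩, h.2.2⟩,
          mem_KK_triv.1 z'.2 T fun h => hT ⟨⟨h.1, h.2.1⟩, h.2.2⟩]
    · intro g
      refine ⟨⟨fun T => if h : (G.IsClique (T : Set V) ∧ (T : Set V) ⊆ A) ∧ T.card = i then
        g ⟨T, h⟩ else 0, ?_⟩, ?_⟩
      · rw [mem_KK_triv]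
        intro T hT
        exact dif_neg fun h => hT ⟨h.1.1, h.1.2, h.2⟩
      · funext T
        exact dif_pos T.2
  rw [(LinearEquiv.ofBijective f hf).finrank_eq, Module.finrank_fintype_fun_eq_card,
    Fintype.card_subtype]

/-- the alternating number of cliques in `A` -/
noncomputable def cl (G : SimpleGraph V) (A : Set V) : ℤ :=
  ∑ T : Finset V, if G.IsClique (T : Set V) ∧ (T : Set V) ⊆ A then (-1 : ℤ) ^ T.card else 0

theorem cl_eq (hS : Sph 4 G) (A : Set V) : cl G A =
    (beta G (triv V) A ∅ 0 : ℤ) - beta G (triv V) A ∅ 1 + beta G (triv V) A ∅ 2 -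
      beta G (triv V) A ∅ 3 + beta G (triv V) A ∅ 4 := by
  have h := euler G (triv V) A ∅ 4
  have h5 : BB G (triv V) A ∅ 4 = ⊥ := by
    have : KK G (triv V) A ∅ (4 + 1) = ⊥ := by
      rw [eq_bot_iff]
      intro c hc
      rw [mem_KK_triv] at hc
      rw [Submodule.mem_bot]
      funext T
      refine hc T ?_
      rintro ⟨h1, _, h3⟩
      have := no_big hS h1
      omega
    unfold BB
    rw [this, Submodule.map_bot]
  rw [h5, finrank_bot, Nat.cast_zero, mul_zero, sub_zero] at h
  have h6 : ∑ i ∈ Finset.range (4 + 1), (-1 : ℤ) ^ i * (finrank ℝ (KK G (triv V) A ∅ i) : ℤ) =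
      cl G A := by
    unfold cl
    rw [← Finset.sum_filter, ← Finset.sum_fiberwise_of_maps_to (g := Finset.card)
      (t := Finset.range (4 + 1))]
    · refine Finset.sum_congr rfl fun i _ => ?_
      rw [KK_dim, Finset.sum_congr rfl (g := fun _ => (-1 : ℤ) ^ i), Finset.sum_const,
        Finset.filter_filter, nsmul_eq_mul, mul_comm]
      intro T hT
      rw [Finset.mem_filter] at hT
      rw [hT.2]
    · intro T hT
      rw [Finset.mem_filter] at hT
      have := no_big hS hT.2.1
      rw [Finset.mem_range]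
      omega
  rw [← h6, ← h]
  simp only [Finset.sum_range_succ, Finset.sum_range_zero]
  norm_num
  ring

theorem card_above (T : Finset V) :
    (Finset.univ.filter fun A : Finset V => (T : Set V) ⊆ (A : Set V)).card =
      2 ^ (Fintype.card V - T.card) := by
  rw [← Finset.card_univ, ← Finset.card_Icc_finset (Finset.subset_univ T)]
  congr 1
  ext A
  simp only [Finset.mem_filter, Finset.mem_univ, true_and, Finset.mem_Icc, Finset.coe_subset,
    Finset.subset_univ, and_true]

theorem sum_cl : ((∑ A : Finset V, cl G (A : Set V) : ℤ) : ℚ) = 2 ^ (Fintype.card V) * chiW G := by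
  unfold cl chiW
  rw [Finset.sum_comm, Finset.mul_sum]
  push_cast
  refine Finset.sum_congr rfl fun T _ => ?_
  by_cases hT : G.IsClique (T : Set V)
  · have h1 : ∀ A : Finset V, (if G.IsClique (T : Set V) ∧ (T : Set V) ⊆ (A : Set V) then
        (-1 : ℚ) ^ T.card else 0) = if (T : Set V) ⊆ (A : Set V) then (-1 : ℚ) ^ T.card else 0 := by
      intro A
      by_cases h : (T : Set V) ⊆ (A : Set V)
      · rw [if_pos ⟨hT, h⟩, if_pos h]
      · rw [if_neg fun h' => h h'.2, if_neg h]
    rw [Finset.sum_congr rfl fun A _ => h1 A, ← Finset.sum_filter, Finset.sum_const, card_above,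
      if_pos hT, nsmul_eq_mul]
    push_cast
    have h2 : T.card ≤ Fintype.card V := Finset.card_le_univ T
    have h3 : (2 : ℚ) ^ Fintype.card V = 2 ^ (Fintype.card V - T.card) * 2 ^ T.card := by
      rw [← pow_add]
      congr 1
      omega
    rw [h3, div_pow]
    field_simp
  · rw [if_neg hT, mul_zero]
    refine Finset.sum_eq_zero fun A _ => ?_
    rw [if_neg fun h => hT h.1]

theorem beta0 {A : Set V} (hA : A.Nonempty) : beta G (triv V) A ∅ 0 = 0 := by
  obtain ⟨v, hv⟩ := hA
  have h2 : BB G (triv V) A ∅ 0 = ZZ G (triv V) A ∅ 0 := by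
    refine le_antisymm (BB_le_ZZ _ _ _ _ _) ?_
    rintro z ⟨hz, _⟩
    rw [SetLike.mem_coe, mem_KK_triv] at hz
    refine ⟨z ∅ • dl {v}, ?_, ?_⟩
    · rw [SetLike.mem_coe, mem_KK_triv]
      intro T hT
      have : dl {v} T = 0 := by
        refine if_neg ?_
        rintro rfl
        exact hT ⟨by simp, by simpa using hv, by simp⟩
      rw [Pi.smul_apply, this, smul_zero]
    · rw [map_smul, bd_dl, Finset.sum_singleton, Finset.erase_singleton, sg_empty]
      funext T
      rw [Int.cast_one, one_smul, Pi.smul_apply]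
      unfold dl
      by_cases hT : T = ∅
      · rw [if_pos hT, hT, smul_eq_mul, mul_one]
      · rw [if_neg hT, smul_zero, hz T fun h => hT (Finset.card_eq_zero.1 h.2.2)]
  unfold beta
  rw [h2, Nat.sub_self]

theorem beta0_le (A : Set V) : beta G (triv V) A ∅ 0 ≤ 1 := by
  have h1 : finrank ℝ (ZZ G (triv V) A ∅ 0) ≤ finrank ℝ (KK G (triv V) A ∅ 0) :=
    Submodule.finrank_mono inf_le_left
  have h2 : finrank ℝ (KK G (triv V) A ∅ 0) ≤ 1 := by
    rw [KK_dim, Finset.card_le_one]
    intro T hT T' hT'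
    rw [Finset.mem_filter] at hT hT'
    rw [Finset.card_eq_zero.1 hT.2.2, Finset.card_eq_zero.1 hT'.2.2]
  unfold beta
  omega

theorem ZZ_mono {A : Set V} {i : ℕ} : ZZ G (triv V) A ∅ i ≤ ZZ G (triv V) (lk G ∅) ∅ i := by
  rintro z ⟨h1, h2⟩
  refine ⟨?_, h2⟩
  rw [SetLike.mem_coe, mem_KK_triv] at h1 ⊢
  exact fun T hT => h1 T fun h => hT ⟨h.1, fun v _ u hu => absurd hu (Finset.notMem_empty u), h.2.2⟩

theorem beta4_le (hS : Sph 4 G) (A : Set V) : beta G (triv V) A ∅ 4 ≤ 1 := by
  have h1 : finrank ℝ (ZZ G (triv V) A ∅ 4) ≤ finrank ℝ (ZZ G (triv V) (lk G ∅) ∅ 4) :=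
    Submodule.finrank_mono ZZ_mono
  rw [top_dim hS (by simp) (by simp)] at h1
  unfold beta
  omega

theorem beta4 (hS : Sph 4 G) {A : Set V} (hA : A ≠ Set.univ) : beta G (triv V) A ∅ 4 = 0 := by
  obtain ⟨v, hv⟩ := (Set.ne_univ_iff_exists_notMem A).1 hA
  have h : ZZ G (triv V) A ∅ 4 = ⊥ := by
    rw [eq_bot_iff]
    intro z hz
    rw [Submodule.mem_bot]
    by_contra hz0
    refine Lv_ne hS 4 ∅ (by simp) (by simp) z (ZZ_mono hz) hz0 v
      (fun u hu => absurd hu (Finset.notMem_empty u)) ?_
    funext R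
    unfold Lv
    split_ifs with hR
    · rfl
    · have h1 := mem_KK_triv.1 hz.1 (insert v R) (by
        rintro ⟨_, h2, _⟩
        exact hv (h2 (by simp)))
      rw [h1, mul_zero]
      rfl
  unfold beta
  rw [h, finrank_bot, Nat.zero_sub]

theorem beta1 {x y : V} (hxy : x ≠ y) (hn : ¬ G.Adj x y) :
    1 ≤ beta G (triv V) ({x, y} : Set V) ∅ 1 := by
  have h1 : BB G (triv V) ({x, y} : Set V) ∅ 1 = ⊥ := by
    have : KK G (triv V) ({x, y} : Set V) ∅ (1 + 1) = ⊥ := by
      rw [eq_bot_iff]
      intro c hc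
      rw [mem_KK_triv] at hc
      rw [Submodule.mem_bot]
      funext T
      refine hc T ?_
      rintro ⟨h1, h2, h3⟩
      obtain ⟨u, v, huv, rfl⟩ := Finset.card_eq_two.1 h3
      have h4 : G.Adj u v := h1 (by simp) (by simp) huv
      have hu : u ∈ ({x, y} : Set V) := h2 (by simp)
      have hv : v ∈ ({x, y} : Set V) := h2 (by simp)
      rcases hu with rfl | hu <;> rcases hv with rfl | hv
      · exact huv rfl
      · exact hn (hv ▸ h4)
      · exact hn (hu ▸ h4).symm
      · exact huv (hu.trans hv.symm)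
    unfold BB
    rw [this, Submodule.map_bot]
  have h2 : dv x y ∈ ZZ G (triv V) ({x, y} : Set V) ∅ 1 := by
    have h3 : dv x y ∈ ZZ G (triv V) (lk G ∅) ∅ 1 := dv_mem hxy
      (fun u hu => absurd hu (Finset.notMem_empty u)) (fun u hu => absurd hu (Finset.notMem_empty u))
    refine ⟨?_, h3.2⟩
    rw [SetLike.mem_coe, mem_KK_triv]
    intro T hT
    unfold dv
    rw [if_neg, if_neg]
    · rintro rfl
      exact hT ⟨by simp, by simp, by simp⟩
    · rintro rfl
      exact hT ⟨by simp, by simp, by simp⟩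
  have h3 : dv x y ≠ (0 : Finset V → ℝ) := by
    intro h
    have h4 := congrFun h {y}
    unfold dv at h4
    rw [if_pos rfl] at h4
    exact one_ne_zero h4
  unfold beta
  rw [h1, finrank_bot, Nat.sub_zero, Nat.one_le_iff_ne_zero]
  intro h
  rw [Submodule.finrank_eq_zero] at h
  rw [h, Submodule.mem_bot] at h2
  exact h3 h2

end Pool.Agent.Helper41.SD
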