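import Pool.Agent.Helper41.SD.D6

/-!
The inequality between the Euler characteristic and the number of squares.
-/

set_option autoImplicit false
set_option linter.unusedSectionVars false

open scoped Classical

namespace Pool.Agent.Helper41.SD

open Pool.Agent.W907.SG Pool.Agent.W907.SM Module Pool.Agent.TH652.Dual
open Pool.Agent.Q134.SV (IsCyc par)
open Pool.Agent.N13.QC (svol)

variable {V : Type} [Fintype V] [LinearOrder V] {G : SimpleGraph V}

theorem IsSq.card {Q : Finset V} (h : IsSq G Q) : Q.card = 4 := by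
  obtain ⟨x, y, z, w, h, rfl⟩ := h
  rw [Finset.card_insert_of_notMem (by simp [h.xy.ne, h.xz, h.wx.ne.symm]),
    Finset.card_insert_of_notMem (by simp [h.yz.ne, h.yw]),
    Finset.card_insert_of_notMem (by simpa using h.zw.ne), Finset.card_singleton]

/-- the weighted number of squares: a square with `c` common neighbours is counted with the weight
`2^(-c)` -/
noncomputable def wsq (G : SimpleGraph V) : ℚ :=
  ∑ Q : Finset V, if IsSq G Q then (1 / 2 : ℚ) ^ (CN G Q).card else 0

theorem card_SqIn {Q : Finset V} (hQ : IsSq G Q) :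
    (Finset.univ.filter fun A : Finset V => SqIn G (A : Set V) Q).card =
      2 ^ (Fintype.card V - (CN G Q).card - 4) := by
  have h0 : Q ⊆ (CN G Q)ᶜ := by
    intro v hv
    rw [Finset.mem_compl, mem_CN]
    exact fun h => (h v hv).ne rfl
  rw [← hQ.card, ← Finset.card_compl, ← Finset.card_Icc_finset h0]
  congr 1
  ext A
  rw [Finset.mem_filter, Finset.mem_Icc]
  constructor
  · rintro ⟨_, _, h2, h3⟩
    refine ⟨Finset.coe_subset.1 h2, fun v hv => ?_⟩
    rw [Finset.mem_compl]
    exact fun h => h3 v h hv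
  · rintro ⟨h2, h3⟩
    refine ⟨Finset.mem_univ _, hQ, Finset.coe_subset.2 h2, fun v hv hvA => ?_⟩
    have := h3 hvA
    rw [Finset.mem_compl] at this
    exact this hv

theorem sum_nsq : ((∑ A : Finset V, nsq G (A : Set V) : ℕ) : ℚ) =
    2 ^ (Fintype.card V) * (1 / 16 * wsq G) := by
  unfold nsq wsq
  simp only [Finset.card_filter]
  rw [Finset.sum_comm, Finset.mul_sum, Finset.mul_sum]
  push_cast
  refine Finset.sum_congr rfl fun Q _ => ?_
  by_cases hQ : IsSq G Q
  · have h1 := card_SqIn hQ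
    rw [Finset.card_filter] at h1
    have h2 : (∑ A : Finset V, (if SqIn G (A : Set V) Q then (1 : ℚ) else 0)) =
        ((∑ A : Finset V, (if SqIn G (A : Set V) Q then 1 else 0) : ℕ) : ℚ) := by
      push_cast
      rfl
    rw [h2, h1, if_pos hQ]
    have h0 : Q ⊆ (CN G Q)ᶜ := by
      intro v hv
      rw [Finset.mem_compl, mem_CN]
      exact fun h => (h v hv).ne rfl
    have h3 := Finset.card_le_card h0
    rw [Finset.card_compl, hQ.card] at h3
    have h4 : (2 : ℚ) ^ Fintype.card V =
        2 ^ (Fintype.card V - (CN G Q).card - 4) * 2 ^ (CN G Q).card * 16 := by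
      rw [show (16 : ℚ) = 2 ^ 4 by norm_num, ← pow_add, ← pow_add]
      congr 1
      omega
    rw [h4, one_div_pow]
    push_cast
    field_simp
  · rw [if_neg hQ, mul_zero, mul_zero]
    refine Finset.sum_eq_zero fun A _ => ?_
    rw [if_neg fun h => hQ h.1]

theorem sum_nsq_compl : ∑ A : Finset V, nsq G (A : Set V)ᶜ = ∑ A : Finset V, nsq G (A : Set V) := by
  rw [← Equiv.sum_comp (Function.Involutive.toPerm (compl : Finset V → Finset V)
    compl_involutive)]
  refine Finset.sum_congr rfl fun A _ => ?_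
  change nsq G ((Aᶜ : Finset V) : Set V)ᶜ = nsq G (A : Set V)
  rw [Finset.coe_compl, compl_compl]

theorem opp (hS : Sph 4 G) {a : (Fin 4 → V) → ℝ} (ha : IsCyc 4 G a) {v : Fin 4 → V} (hv : a v ≠ 0)
    (i : Fin 4) : ∃ x, x ≠ v i ∧ ¬ G.Adj x (v i) ∧ ∀ j, j ≠ i → G.Adj x (v j) := by
  obtain ⟨x, hx1, hx2⟩ : ∃ x, x ≠ v i ∧ a (Function.update v i x) ≠ 0 := by
    by_contra h
    push Not at h
    have h1 := ha.cyc v i
    rw [Finset.sum_eq_single (v i) (fun b _ hb => h b hb) (fun h => absurd (Finset.mem_univ _) h),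
      Function.update_eq_self] at h1
    exact hv h1
  have h1 : ∀ j, j ≠ i → G.Adj x (v j) := by
    intro j hj
    have := ha.supp _ hx2 i j hj.symm
    rwa [Function.update_self, Function.update_of_ne hj] at this
  refine ⟨x, hx1, ?_, h1⟩
  intro hadj
  have hall : ∀ j, G.Adj x (v j) := by
    intro j
    by_cases hj : j = i
    · rw [hj]
      exact hadj
    · exact h1 j hj
  have hinj : Function.Injective v := by
    intro p q hpq
    by_contra hne
    exact (ha.supp v hv p q hne).ne hpq
  have hcl : G.IsClique ((insert x (Finset.univ.image v) : Finset V) : Set V) := by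
    intro p hp q hq hpq
    simp only [Finset.coe_insert, Finset.coe_image, Finset.coe_univ, Set.image_univ,
      Set.mem_insert_iff, Set.mem_range] at hp hq
    rcases hp with rfl | ⟨j, rfl⟩ <;> rcases hq with rfl | ⟨k, rfl⟩
    · exact absurd rfl hpq
    · exact hall k
    · exact (hall j).symm
    · exact ha.supp v hv j k fun e => hpq (by rw [e])
  have h2 := no_big hS hcl
  rw [Finset.card_insert_of_notMem, Finset.card_image_of_injective _ hinj, Finset.card_univ,
    Fintype.card_fin] at h2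
  · omega
  · rw [Finset.mem_image]
    rintro ⟨j, _, e⟩
    exact (hall j).ne e.symm

/-- The inequality between the Euler characteristic and the number of squares. -/
theorem chi_le (hS : Sph 4 G) {a : (Fin 4 → V) → ℝ} (ha : IsCyc 4 G a) (h0 : a ≠ 0)
    (hb : ∀ A : Set V, beta G (triv V) A ∅ 2 ≤ nsq G A + nsq G Aᶜ) :
    8 * chiW G ≤ wsq G := by
  obtain ⟨v, hv⟩ : ∃ v, a v ≠ 0 := by
    by_contra h
    push Not at h
    exact h0 (funext h)
  have hinj : Function.Injective v := by
    intro p q hpq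
    by_contra hne
    exact (ha.supp v hv p q hne).ne hpq
  obtain ⟨x, x1, x2, x3⟩ := opp hS ha hv 0
  obtain ⟨y, y1, y2, y3⟩ := opp hS ha hv 1
  have hne : ({x, v 0} : Finset V) ≠ {y, v 1} := by
    intro e
    have h1 : v 1 ∈ ({x, v 0} : Finset V) := by
      rw [e]
      simp
    simp only [Finset.mem_insert, Finset.mem_singleton] at h1
    rcases h1 with h1 | h1
    · exact (x3 1 (by decide)).ne h1.symm
    · exact absurd (hinj h1) (by decide)
  have s0 : ∑ A : Finset V, (beta G (triv V) (A : Set V) ∅ 0 : ℤ) ≤ 1 := by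
    rw [Finset.sum_eq_single ∅]
    · exact_mod_cast beta0_le _
    · intro A _ hA
      rw [beta0 (by simpa using Finset.nonempty_iff_ne_empty.2 hA)]
      rfl
    · intro h
      exact absurd (Finset.mem_univ _) h
  have s4 : ∑ A : Finset V, (beta G (triv V) (A : Set V) ∅ 4 : ℤ) ≤ 1 := by
    rw [Finset.sum_eq_single Finset.univ]
    · exact_mod_cast beta4_le hS _
    · intro A _ hA
      rw [beta4 hS]
      · rfl
      · intro h
        exact hA (Finset.coe_eq_univ.1 h)
    · intro h
      exact absurd (Finset.mem_univ _) h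
  have s1 : 2 ≤ ∑ A : Finset V, (beta G (triv V) (A : Set V) ∅ 1 : ℤ) := by
    have h1 : ∑ A ∈ ({{x, v 0}, {y, v 1}} : Finset (Finset V)),
        (beta G (triv V) (A : Set V) ∅ 1 : ℤ) ≤
        ∑ A : Finset V, (beta G (triv V) (A : Set V) ∅ 1 : ℤ) :=
      Finset.sum_le_sum_of_subset_of_nonneg (Finset.subset_univ _) fun _ _ _ => Int.natCast_nonneg _
    rw [Finset.sum_pair hne, Finset.coe_pair, Finset.coe_pair] at h1
    have h2 : (1 : ℤ) ≤ beta G (triv V) ({x, v 0} : Set V) ∅ 1 := by exact_mod_cast beta1 x1 x2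
    have h3 : (1 : ℤ) ≤ beta G (triv V) ({y, v 1} : Set V) ∅ 1 := by exact_mod_cast beta1 y1 y2
    linarith
  have s3 : 0 ≤ ∑ A : Finset V, (beta G (triv V) (A : Set V) ∅ 3 : ℤ) :=
    Finset.sum_nonneg fun _ _ => Int.natCast_nonneg _
  have s2 : ∑ A : Finset V, (beta G (triv V) (A : Set V) ∅ 2 : ℤ) ≤
      2 * ((∑ A : Finset V, nsq G (A : Set V) : ℕ) : ℤ) := by
    have h1 : ∑ A : Finset V, (beta G (triv V) (A : Set V) ∅ 2 : ℤ) ≤
        ∑ A : Finset V, ((nsq G (A : Set V) : ℤ) + (nsq G (A : Set V)ᶜ : ℤ)) :=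
      Finset.sum_le_sum fun A _ => by exact_mod_cast hb (A : Set V)
    rw [Finset.sum_add_distrib] at h1
    have h3 : ∑ A : Finset V, (nsq G (A : Set V)ᶜ : ℤ) = ∑ A : Finset V, (nsq G (A : Set V) : ℤ) := by
      exact_mod_cast sum_nsq_compl (G := G)
    rw [h3] at h1
    push_cast
    linarith
  have key : ∑ A : Finset V, cl G (A : Set V) ≤
      2 * ((∑ A : Finset V, nsq G (A : Set V) : ℕ) : ℤ) := by
    simp only [cl_eq hS, Finset.sum_add_distrib, Finset.sum_sub_distrib]
    linarith
  have h1 : ((∑ A : Finset V, cl G (A : Set V) : ℤ) : ℚ) ≤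
      2 * ((∑ A : Finset V, nsq G (A : Set V) : ℕ) : ℚ) := by
    exact_mod_cast key
  rw [sum_cl, sum_nsq] at h1
  have h3 : (0 : ℚ) < 2 ^ (Fintype.card V) := by positivity
  have h4 : 2 ^ (Fintype.card V) * (8 * chiW G) ≤ 2 ^ (Fintype.card V) * wsq G := by linarith
  exact le_of_mul_le_mul_left h4 h3

end Pool.Agent.Helper41.SD
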