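import Pool.Agent.Helper41.SD.D7

/-!
The quantitative form of the duality theorem in dimension four, with a simplicial map.
-/

set_option autoImplicit false
set_option linter.unusedSectionVars false

open scoped Classical

namespace Pool.Agent.Helper41.SV

open Pool.Agent.W907.SG (W cox)
open Pool.Agent.Q134.SV Pool.Agent.N13.QC

theorem sf_self {V : Type} {G : SimpleGraph V} {ψ : V → V → ℝ} (h : SqFree G ψ) (x : V) :
    ψ x x = 0 := by
  have := h.anti x x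
  linarith

theorem sf_tri {V : Type} {G : SimpleGraph V} {ψ : V → V → ℝ} (h : SqFree G ψ) {a b c : V}
    (h1 : a = b ∨ G.Adj a b) (h2 : b = c ∨ G.Adj b c) (h3 : a = c ∨ G.Adj a c) :
    ψ a b + ψ b c = ψ a c := by
  rcases h1 with rfl | h1
  · rw [sf_self h, zero_add]
  · rcases h2 with rfl | h2
    · rw [sf_self h, add_zero]
    · rcases h3 with rfl | h3
      · rw [h.anti b a, sf_self h, add_neg_cancel]
      · exact h.tri a b c h1 h2 h3

theorem sf_sq {V : Type} {G : SimpleGraph V} {ψ : V → V → ℝ} (h : SqFree G ψ) {a b z z' : V}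
    (h1 : a = z ∨ G.Adj a z) (h2 : z = b ∨ G.Adj z b) (h3 : a = z' ∨ G.Adj a z')
    (h4 : z' = b ∨ G.Adj z' b) : ψ a z + ψ z b = ψ a z' + ψ z' b := by
  rcases h1 with rfl | h1
  · rw [sf_self h, zero_add, sf_tri h h3 h4 h2]
  rcases h2 with rfl | h2
  · rw [sf_self h, add_zero, sf_tri h h3 h4 (Or.inr h1)]
  rcases h3 with rfl | h3
  · rw [sf_self h, zero_add, sf_tri h (Or.inr h1) (Or.inr h2) h4]
  rcases h4 with rfl | h4
  · rw [sf_self h, add_zero, sf_tri h (Or.inr h1) (Or.inr h2) (Or.inr h3)]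
  exact h.sq a b z z' h1 h2 h3 h4

theorem sf_comap {V V₀ : Type} {G : SimpleGraph V} {G₀ : SimpleGraph V₀} (f : V → V₀)
    (hf : ∀ x y, G.Adj x y → f x = f y ∨ G₀.Adj (f x) (f y)) (P : V₀ → Prop) (ψ : V₀ → V₀ → ℝ)
    (h : SqFree (GA G₀ P) fun a b => ψ a.1 b.1) :
    SqFree (GA G fun v => P (f v)) fun a b => ψ (f a.1) (f b.1) := by
  have hR : ∀ (x y : {v // P (f v)}), G.Adj x.1 y.1 →
      (⟨f x.1, x.2⟩ : {v // P v}) = ⟨f y.1, y.2⟩ ∨ (GA G₀ P).Adj ⟨f x.1, x.2⟩ ⟨f y.1, y.2⟩ := by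
    intro x y hxy
    rcases hf _ _ hxy with e | e
    · exact Or.inl (Subtype.ext e)
    · exact Or.inr e
  refine ⟨?_, ?_, ?_⟩
  · intro a b
    exact h.anti ⟨f a.1, a.2⟩ ⟨f b.1, b.2⟩
  · intro a b c h1 h2 h3
    exact sf_tri h (hR a b h1) (hR b c h2) (hR a c h3)
  · intro a b z z' h1 h2 h3 h4
    exact sf_sq h (hR a z h1) (hR z b h2) (hR a z' h3) (hR z' b h4)

theorem sum_push {V V₀ : Type} [Fintype V] [Fintype V₀] {n : ℕ} (f : V → V₀)
    (a : (Fin n → V) → ℝ) (F : (Fin n → V₀) → ℝ) :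
    ∑ w, push f a w * F w = ∑ v, a v * F (f ∘ v) := by
  unfold push
  simp only [Finset.sum_mul]
  rw [Finset.sum_comm]
  refine Finset.sum_congr rfl fun v _ => ?_
  rw [Finset.sum_eq_single (f ∘ v)]
  · rw [if_pos rfl]
  · intro w _ hw
    rw [if_neg fun h => hw h.symm, zero_mul]
  · intro h
    exact absurd (Finset.mem_univ _) h

variable {V V₀ : Type}

/-- Let `f` be a simplicial map and `a` a 3-cycle. If the dual, with respect to `f_* a`, of a cocycle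
which vanishes on the squares is not a combination of triangles and squares then the simplicial volume
is at least a multiple of the index. -/
theorem exists_c [Fintype V] [Fintype V₀] (G : SimpleGraph V) (G₀ : SimpleGraph V₀) (f : V → V₀)
    (hf : ∀ x y, G.Adj x y → f x = f y ∨ G₀.Adj (f x) (f y)) (A : V₀ → Prop) (φ : V₀ → V₀ → ℝ)
    (hφ : SqFree (GA G₀ A) fun a b => φ a.1 b.1) (a : (Fin 4 → V) → ℝ) (ha : IsCyc 4 G a)
    (hn : dualC A φ (push f a) ∉ SqSpan G₀ fun v => ¬ A v) :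
    ∃ c : ℝ, 0 < c ∧ ∀ H : Subgroup (W G), H.index ≠ 0 → H ≤ (par G).ker →
      c * H.index ≤ svol G 4 a H := by
  have ha₀ : IsCyc 4 G₀ (push f a) := ha.push f hf
  obtain ⟨ψ, h1, h2, h3⟩ := exists_detect G₀ (fun v => ¬ A v) (dualC A φ (push f a))
    (dualC_anti A φ ha₀) hn
  let cl : V₀ → Fin 2 := fun v => if A v then 0 else 1
  have hcl0 : ∀ v, cl v = 0 ↔ A v := by
    intro v
    by_cases h : A v
    · simp [cl, h]
    · simp [cl, h]
  have hcl1 : ∀ v, cl v = 1 ↔ ¬ A v := by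
    intro v
    by_cases h : A v
    · simp [cl, h]
    · simp [cl, h]
  let Φ : Fin 2 → V₀ → V₀ → ℝ := ![φ, ψ]
  let B : Fin 2 → ℝ := fun i => ∑ s, ∑ t, |Φ i s t|
  have hB0 : ∀ i, 0 ≤ B i := fun i => Finset.sum_nonneg fun s _ => Finset.sum_nonneg fun t _ =>
    abs_nonneg _
  have hB : ∀ (i : Fin 2) x y, |Φ i x y| ≤ B i := by
    intro i x y
    calc |Φ i x y| ≤ ∑ t, |Φ i x t| :=
          Finset.single_le_sum (f := fun t => |Φ i x t|) (fun _ _ => abs_nonneg _)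
            (Finset.mem_univ y)
      _ ≤ B i := Finset.single_le_sum (f := fun s => ∑ t, |Φ i s t|)
            (fun _ _ => Finset.sum_nonneg fun t _ => abs_nonneg _) (Finset.mem_univ x)
  have hΦ : ∀ i, SqFree (GA G₀ fun v => cl v = i) fun x y => Φ i x.1 y.1 := by
    intro i
    fin_cases i
    · refine ⟨fun x y => ?_, fun x y z => ?_, fun x y z w => ?_⟩
      · exact hφ.anti ⟨x.1, (hcl0 _).1 x.2⟩ ⟨y.1, (hcl0 _).1 y.2⟩
      · exact hφ.tri ⟨x.1, (hcl0 _).1 x.2⟩ ⟨y.1, (hcl0 _).1 y.2⟩ ⟨z.1, (hcl0 _).1 z.2⟩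
      · exact hφ.sq ⟨x.1, (hcl0 _).1 x.2⟩ ⟨y.1, (hcl0 _).1 y.2⟩ ⟨z.1, (hcl0 _).1 z.2⟩
          ⟨w.1, (hcl0 _).1 w.2⟩
    · refine ⟨fun x y => ?_, fun x y z => ?_, fun x y z w => ?_⟩
      · exact h1.anti ⟨x.1, (hcl1 _).1 x.2⟩ ⟨y.1, (hcl1 _).1 y.2⟩
      · exact h1.tri ⟨x.1, (hcl1 _).1 x.2⟩ ⟨y.1, (hcl1 _).1 y.2⟩ ⟨z.1, (hcl1 _).1 z.2⟩
      · exact h1.sq ⟨x.1, (hcl1 _).1 x.2⟩ ⟨y.1, (hcl1 _).1 y.2⟩ ⟨z.1, (hcl1 _).1 z.2⟩
          ⟨w.1, (hcl1 _).1 w.2⟩
  let F : (Fin 4 → V₀) → ℝ := fun v => ∏ i : Fin 2,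
        (if cl (v ⟨2 * i, by omega⟩) = i ∧ cl (v ⟨2 * i + 1, by omega⟩) = i then
          Φ i (v ⟨2 * i, by omega⟩) (v ⟨2 * i + 1, by omega⟩) else 0)
  by_cases h0 : ∑ v : Fin 4 → V₀, push f a v * F v ≠ 0
  · set S : ℝ := ∑ v : Fin 4 → V₀, push f a v * F v with hSdef
    have hS2 : S = ∑ v : Fin 4 → V, a v * F (f ∘ v) := sum_push f a F
    set C : ℝ := ∏ i, 96 * ((Fintype.card V : ℝ) + 1) ^ 3 * B i with hC
    have hC0 : 0 ≤ C := Finset.prod_nonneg fun i _ => by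
      have := hB0 i
      positivity
    refine ⟨|S| / (C + 1), by positivity, fun H hi hε => ?_⟩
    have h : (H.index : ℝ) * |S| ≤ C * svol G 4 a H := by
      rw [hS2]
      exact main 2 V G (fun v => cl (f v)) (fun i x y => Φ i (f x) (f y)) B
        (fun i => sf_comap f hf (fun v => cl v = i) (Φ i) (hΦ i)) hB0
        (fun i x y _ _ _ => hB i (f x) (f y)) a ha H hi hε
    have hs : 0 ≤ svol G 4 a H := by
      refine Real.sInf_nonneg ?_
      rintro r ⟨z, _, rfl⟩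
      exact Finset.sum_nonneg fun _ _ => abs_nonneg _
    rw [div_mul_eq_mul_div, div_le_iff₀ (by positivity)]
    nlinarith
  rw [not_not] at h0
  exfalso
  apply h3
  rw [← h0]
  have e : ∑ v : Fin 4 → V₀, push f a v * F v =
      ∑ x, ∑ y, ∑ s, ∑ t, push f a ![x, y, s, t] * ((if A x ∧ A y then φ x y else 0) *
        (if ¬ A s ∧ ¬ A t then ψ s t else 0)) := by
    rw [show (∑ v : Fin 4 → V₀, push f a v * F v) =
        ∑ v : Fin 4 → V₀, push f a v * ((if cl (v 0) = 0 ∧ cl (v 1) = 0 then φ (v 0) (v 1) else 0) *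
          (if cl (v 2) = 1 ∧ cl (v 3) = 1 then ψ (v 2) (v 3) else 0)) from ?_, sum_four]
    · refine Finset.sum_congr rfl fun x _ => Finset.sum_congr rfl fun y _ =>
        Finset.sum_congr rfl fun s _ => Finset.sum_congr rfl fun t _ => ?_
      simp only [hcl0, hcl1]
      rfl
    · refine Finset.sum_congr rfl fun v _ => ?_
      change push f a v * ∏ i : Fin 2, _ = _
      rw [Fin.prod_univ_two]
      rfl
  rw [e]
  have e2 : ∀ s t, dualC A φ (push f a) s t * ψ s t = ∑ x, ∑ y, push f a ![x, y, s, t] *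
      ((if A x ∧ A y then φ x y else 0) * (if ¬ A s ∧ ¬ A t then ψ s t else 0)) := by
    intro s t
    unfold dualC
    by_cases h : ¬ A s ∧ ¬ A t
    · rw [if_pos h, Finset.sum_mul]
      refine Finset.sum_congr rfl fun x _ => ?_
      rw [Finset.sum_mul]
      refine Finset.sum_congr rfl fun y _ => ?_
      rw [if_pos h]
      ring
    · rw [if_neg h, zero_mul]
      refine (Finset.sum_eq_zero fun x _ => Finset.sum_eq_zero fun y _ => ?_).symm
      rw [if_neg h]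
      ring
  simp only [e2]
  rw [show (∑ s, ∑ t, ∑ x, ∑ y, push f a ![x, y, s, t] *
      ((if A x ∧ A y then φ x y else 0) * (if ¬ A s ∧ ¬ A t then ψ s t else 0))) =
      ∑ p : V₀ × V₀, ∑ q : V₀ × V₀, push f a ![q.1, q.2, p.1, p.2] *
      ((if A q.1 ∧ A q.2 then φ q.1 q.2 else 0) *
        (if ¬ A p.1 ∧ ¬ A p.2 then ψ p.1 p.2 else 0)) by
    simp only [Fintype.sum_prod_type], Finset.sum_comm]
  simp only [Fintype.sum_prod_type]

end Pool.Agent.Helper41.SV
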